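import Pool.Agent.Run7.h278.LM.Expl2

set_option autoImplicit false

/-!
# Zeros off the line: the exponential moments are infinite
-/

namespace Run7.h278.LM

open Complex Filter Topology MeasureTheory Set Pool.Agent.H24R2.JP Run7.h278.WL Run7.h278.LI

theorem hz_diff : Differentiable ℂ hz := by
  intro w
  by_cases h : w = 1
  · rw [h]
    exact hz_deriv_one.differentiableAt
  · have h1 : hz =ᶠ[𝓝 w] fun w => (w - 1) * riemannZeta w := by
      filter_upwards [isOpen_ne.mem_nhds h] with z hz'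
      exact hz_ne hz'
    rw [h1.differentiableAt_iff]
    exact (by fun_prop : DifferentiableAt ℂ (fun w : ℂ => w - 1) w).mul (differentiableAt_riemannZeta h)

theorem off_zero (h : ¬RiemannHypothesis) : ∃ ρ : ℂ, 1 / 2 < ρ.re ∧ hz ρ = 0 := by
  obtain ⟨s, hs, hx⟩ := exists_zero h
  refine ⟨s, hs, ?_⟩
  have h0 : 0 < s.re := by linarith
  have h1 : Xf s = 0 := by
    unfold Xf
    rw [xi_XX] at hx
    have h8 : (8 : ℂ) ≠ 0 := by norm_num
    rcases div_eq_zero_iff.1 hx with h2 | h2
    · exact h2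
    · exact absurd h2 h8
  rw [Xf_hz h0] at h1
  have hs0 : s ≠ 0 := fun h => by rw [h] at h0; simp at h0
  rcases mul_eq_zero.1 h1 with h2 | h2
  · rcases mul_eq_zero.1 h2 with h3 | h3
    · exact absurd h3 (mul_ne_zero (by norm_num) hs0)
    · exact h3
  · exact absurd h2 (Gammaℝ_ne_zero_of_re_pos h0)

/-- the transform is analytic as far as it converges absolutely -/
theorem lap_diff {f : ℝ → ℝ} (hf : Continuous f) {σ₀ : ℝ}
    (hi : ∀ σ : ℝ, σ₀ < σ → IntegrableOn (fun u : ℝ => |f u| * Real.exp (-σ * u)) (Ioi 0)) :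
    DifferentiableOn ℂ (fun p : ℂ => ∫ u : ℝ in Ioi 0, (f u : ℂ) * cexp (-p * u)) {p | σ₀ < p.re} := by
  intro p hp
  have hp' : σ₀ < p.re := hp
  set ε := (p.re - σ₀) / 4 with hε
  have hε0 : 0 < ε := by rw [hε]; linarith
  have hcm : ∀ q : ℂ, Continuous fun u : ℝ => (f u : ℂ) * cexp (-q * u) := fun q =>
    (Complex.continuous_ofReal.comp hf).mul (by fun_prop)
  have key := hasDerivAt_integral_of_dominated_loc_of_deriv_le (μ := volume.restrict (Ioi (0 : ℝ)))
    (F := fun (p : ℂ) (u : ℝ) => (f u : ℂ) * cexp (-p * u))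
    (F' := fun (p : ℂ) (u : ℝ) => (f u : ℂ) * (cexp (-p * u) * (-u)))
    (x₀ := p) (s := Metric.ball p ε) (bound := fun u => (1 / ε) * (|f u| * Real.exp (-(p.re - 2 * ε) * u)))
    (Metric.ball_mem_nhds p hε0) (Eventually.of_forall fun q => (hcm q).aestronglyMeasurable) ?_ ?_ ?_ ?_ ?_
  · exact key.2.differentiableAt.differentiableWithinAt
  · refine Integrable.mono' (hi p.re hp') (hcm p).aestronglyMeasurable ?_
    refine Eventually.of_forall fun u => ?_
    rw [norm_mul, norm_exp_neg, Complex.norm_real, Real.norm_eq_abs]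
  · have : Continuous fun u : ℝ => (f u : ℂ) * (cexp (-p * u) * (-u)) :=
      (Complex.continuous_ofReal.comp hf).mul (by fun_prop)
    exact this.aestronglyMeasurable
  · refine (ae_restrict_mem measurableSet_Ioi).mono fun u hu q hq => ?_
    have hu' : (0 : ℝ) < u := hu
    have hq' : p.re - ε < q.re := by
      rw [Metric.mem_ball, dist_eq_norm] at hq
      have h1 : |(q - p).re| ≤ ‖q - p‖ := Complex.abs_re_le_norm _
      rw [Complex.sub_re] at h1
      have := (abs_lt.1 (h1.trans_lt hq)).1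
      linarith
    rw [norm_mul, norm_mul, norm_exp_neg, Complex.norm_real, norm_neg, Complex.norm_real, Real.norm_eq_abs, Real.norm_eq_abs,
      abs_of_pos hu']
    have h1 : Real.exp (-q.re * u) ≤ Real.exp (-(p.re - ε) * u) := by
      rw [Real.exp_le_exp]
      nlinarith
    have h2 : ε * u ≤ Real.exp (ε * u) := by
      have := Real.add_one_le_exp (ε * u)
      linarith
    have h3 : Real.exp (-(p.re - ε) * u) * Real.exp (ε * u) = Real.exp (-(p.re - 2 * ε) * u) := by
      rw [← Real.exp_add]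
      congr 1
      ring
    have h4 : Real.exp (-q.re * u) * u ≤ 1 / ε * Real.exp (-(p.re - 2 * ε) * u) := by
      rw [← h3]
      have h5 : u ≤ 1 / ε * Real.exp (ε * u) := by
        rw [one_div_mul_eq_div, le_div_iff₀ hε0]
        linarith
      calc Real.exp (-q.re * u) * u ≤ Real.exp (-(p.re - ε) * u) * (1 / ε * Real.exp (ε * u)) := by gcongr
        _ = _ := by ring
    calc |f u| * (Real.exp (-q.re * u) * u) ≤ |f u| * (1 / ε * Real.exp (-(p.re - 2 * ε) * u)) := by gcongr
      _ = _ := by ring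
  · exact (hi (p.re - 2 * ε) (by rw [hε]; linarith)).const_mul _
  · refine Eventually.of_forall fun u q _ => ?_
    have h1 : HasDerivAt (fun q : ℂ => cexp (-q * u)) (cexp (-q * u) * (-u)) q := by
      have h2 : HasDerivAt (fun q : ℂ => -q * (u : ℂ)) (-u) q := by
        have := (hasDerivAt_id q).neg.mul_const (u : ℂ)
        simpa using this
      exact h2.cexp
    exact h1.const_mul _

/-- if the second moment is finite, the zeta function has no zeros to the right -/
theorem no_zero {δ : ℝ} (hδ : 0 < δ) (hi : IntegrableOn (fun u : ℝ => Real.exp (-δ * u) * aa u ^ 2) (Ioi 0)) {ρ : ℂ}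
    (hρ : 1 / 2 + δ / 2 < ρ.re) : hz ρ ≠ 0 := by
  intro hzero
  have hconv : ∀ σ : ℝ, δ / 2 < σ → IntegrableOn (fun u : ℝ => |aa u| * Real.exp (-σ * u)) (Ioi 0) := by
    intro σ hσ
    have h1 : IntegrableOn (fun u : ℝ => Real.exp (-δ * u) * aa u ^ 2 + Real.exp (-(2 * σ - δ) * u)) (Ioi 0) :=
      hi.add (integrableOn_exp_mul_Ioi (a := -(2 * σ - δ)) (by linarith) 0)
    have hc : Continuous fun u : ℝ => |aa u| * Real.exp (-σ * u) := aa_cont.abs.mul (by fun_prop)
    refine Integrable.mono' h1 hc.aestronglyMeasurable (Eventually.of_forall fun u => ?_)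
    rw [Real.norm_eq_abs, abs_of_nonneg (by positivity)]
    have e1 : Real.exp (-δ * u) = Real.exp (-δ / 2 * u) ^ 2 := by
      rw [← Real.exp_nat_mul]
      congr 1
      push_cast
      ring
    have e2 : Real.exp (-(2 * σ - δ) * u) = Real.exp (-(σ - δ / 2) * u) ^ 2 := by
      rw [← Real.exp_nat_mul]
      congr 1
      push_cast
      ring
    have e3 : Real.exp (-σ * u) = Real.exp (-δ / 2 * u) * Real.exp (-(σ - δ / 2) * u) := by
      rw [← Real.exp_add]
      congr 1
      ring
    rw [e1, e2, e3, ← sq_abs (aa u)]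
    nlinarith [sq_nonneg (Real.exp (-δ / 2 * u) * |aa u| - Real.exp (-(σ - δ / 2) * u)),
      mul_nonneg (mul_nonneg (Real.exp_pos (-δ / 2 * u)).le (abs_nonneg (aa u))) (Real.exp_pos (-(σ - δ / 2) * u)).le]
  set H : ℂ → ℂ := fun w => ∫ u : ℝ in Ioi 0, (aa u : ℂ) * cexp (-(w - 1 / 2) * u) with hH
  set U : Set ℂ := {w | 1 / 2 + δ / 2 < w.re} with hU
  have hUo : IsOpen U := isOpen_lt continuous_const continuous_re
  have hUc : Convex ℝ U := convex_halfSpace_re_gt _
  have hHd : DifferentiableOn ℂ H U := by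
    have h1 := lap_diff aa_cont hconv
    have h2 : DifferentiableOn ℂ (fun w : ℂ => w - 1 / 2) U := by fun_prop
    refine DifferentiableOn.comp (g := fun p : ℂ => ∫ u : ℝ in Ioi 0, (aa u : ℂ) * cexp (-p * u))
      (f := fun w : ℂ => w - 1 / 2) h1 h2 fun w hw => ?_
    have hw' : 1 / 2 + δ / 2 < w.re := hw
    have : (w - 1 / 2).re = w.re - 1 / 2 := by simp
    show δ / 2 < (w - 1 / 2).re
    rw [this]
    linarith
  have hHa : AnalyticOnNhd ℂ H U := hHd.analyticOnNhd hUo
  have hza : ∀ w, AnalyticAt ℂ hz w := fun w => hz_diff.analyticAt w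
  have hL : AnalyticOnNhd ℂ (fun w => deriv hz w) U := fun w _ => (hza w).deriv
  have hR : AnalyticOnNhd ℂ (fun w => hz w * ((1 + Real.eulerMascheroniConstant) * w - 1 - w * (w - 1) * H w)) U := by
    intro w hw
    have h1 : AnalyticAt ℂ (fun w : ℂ => (1 + (Real.eulerMascheroniConstant : ℂ)) * w - 1) w := by fun_prop
    have h2 : AnalyticAt ℂ (fun w : ℂ => w * (w - 1)) w := by fun_prop
    exact (hza w).mul (h1.sub (h2.mul (hHa w hw)))
  have h3U : (3 + δ : ℂ) ∈ U := by
    show 1 / 2 + δ / 2 < (3 + δ : ℂ).re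
    simp
    linarith
  have hev : (fun w => deriv hz w) =ᶠ[𝓝 (3 + δ : ℂ)]
      fun w => hz w * ((1 + Real.eulerMascheroniConstant) * w - 1 - w * (w - 1) * H w) := by
    have : {w : ℂ | 2 < w.re} ∈ 𝓝 (3 + δ : ℂ) :=
      (isOpen_lt continuous_const continuous_re).mem_nhds (by simp; linarith)
    filter_upwards [this] with w hw
    have hw2 : 2 < w.re := hw
    have hw1 : w ≠ 1 := fun h => by rw [h] at hw2; norm_num at hw2
    have hw0 : w ≠ 0 := fun h => by rw [h] at hw2; norm_num at hw2
    have hwm : w - 1 ≠ 0 := sub_ne_zero.2 hw1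
    have hζ : riemannZeta w ≠ 0 := riemannZeta_ne_zero_of_one_lt_re (by linarith)
    have hd : deriv hz w = riemannZeta w + (w - 1) * deriv riemannZeta w := by
      have h1 : hz =ᶠ[𝓝 w] fun w => (w - 1) * riemannZeta w := by
        filter_upwards [isOpen_ne.mem_nhds hw1] with z hz'
        exact hz_ne hz'
      rw [h1.deriv_eq]
      have h2 : HasDerivAt (fun w : ℂ => w - 1) 1 w := (hasDerivAt_id w).sub_const 1
      have h3 := (h2.mul (differentiableAt_riemannZeta hw1).hasDerivAt).deriv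
      rw [one_mul] at h3
      exact h3
    rw [hd, hz_ne hw1, hH]
    simp only
    rw [(aa_lap hw2).2]
    field_simp
    ring
  have hEq := hL.eqOn_of_preconnected_of_eventuallyEq hR hUc.isPreconnected h3U hev
  have hρU : ρ ∈ U := hρ
  -- the orders at the zero
  have hevρ : (fun w => deriv hz w) =ᶠ[𝓝 ρ]
      fun w => hz w * ((1 + Real.eulerMascheroniConstant) * w - 1 - w * (w - 1) * H w) := by
    filter_upwards [hUo.mem_nhds hρU] with w hw
    exact hEq hw
  have ho := analyticOrderAt_congr hevρ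
  have hKa : AnalyticAt ℂ (fun w : ℂ => (1 + (Real.eulerMascheroniConstant : ℂ)) * w - 1 - w * (w - 1) * H w) ρ := by
    have h1 : AnalyticAt ℂ (fun w : ℂ => (1 + (Real.eulerMascheroniConstant : ℂ)) * w - 1) ρ := by fun_prop
    have h2 : AnalyticAt ℂ (fun w : ℂ => w * (w - 1)) ρ := by fun_prop
    exact h1.sub (h2.mul (hHa ρ hρU))
  have ho2 : analyticOrderAt (fun w => deriv hz w) ρ = analyticOrderAt hz ρ +
      analyticOrderAt (fun w : ℂ => (1 + (Real.eulerMascheroniConstant : ℂ)) * w - 1 - w * (w - 1) * H w) ρ := by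
    rw [ho]
    exact analyticOrderAt_mul (hza ρ) hKa
  have ho3 := (hza ρ).analyticOrderAt_deriv_add_one
  simp only [hzero, sub_zero] at ho3
  have hfin : analyticOrderAt hz ρ ≠ ⊤ := by
    intro htop
    have h1 : hz =ᶠ[𝓝 ρ] 0 := analyticOrderAt_eq_top.1 htop
    have h2 : AnalyticOnNhd ℂ hz univ := fun w _ => hza w
    have h3 := h2.eqOn_of_preconnected_of_eventuallyEq (g := 0) (fun w _ => analyticAt_const) isPreconnected_univ (mem_univ ρ) h1
    have h4 := h3 (mem_univ (1 : ℂ))
    rw [hz_one] at h4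
    exact one_ne_zero h4
  have hle : analyticOrderAt hz ρ ≤ analyticOrderAt (deriv hz) ρ := by
    have : analyticOrderAt (deriv hz) ρ = analyticOrderAt (fun w => deriv hz w) ρ := rfl
    rw [this, ho2]
    exact le_self_add
  rw [← ho3] at hle
  have hfin2 : analyticOrderAt (deriv hz) ρ ≠ ⊤ := by
    intro htop
    rw [htop] at ho3
    exact hfin (by rw [← ho3]; rfl)
  generalize analyticOrderAt (deriv hz) ρ = x at *
  cases x with
  | top => exact hfin2 rfl
  | coe n =>
    have : n + 1 ≤ n := by exact_mod_cast hle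
    omega

end Run7.h278.LM
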