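import Pool.Agent.Run7.h278.LM.Ind

set_option autoImplicit false

/-!
# Infinite sums of cosines
-/

namespace Run7.h278.LM

open Complex Filter Topology MeasureTheory Set

/-! ### Abel means of close functions -/

theorem Am_int {f : ℝ → ℝ} (hf : ContinuousOn f (Ioi 0)) {B : ℝ} (hb : ∀ u, 0 < u → |f u| ≤ B) {δ : ℝ} (hδ : 0 < δ) :
    IntegrableOn (fun u : ℝ => Real.exp (-δ * u) * f u) (Ioi 0) := by
  have h1 : IntegrableOn (fun u : ℝ => B * Real.exp (-δ * u)) (Ioi 0) :=
    (integrableOn_exp_mul_Ioi (a := -δ) (by linarith) 0).const_mul _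
  refine Integrable.mono' h1 ?_ ?_
  · exact ((by fun_prop : Continuous fun u : ℝ => Real.exp (-δ * u)).continuousOn.mul hf).aestronglyMeasurable measurableSet_Ioi
  · refine (ae_restrict_mem measurableSet_Ioi).mono fun u hu => ?_
    rw [norm_mul, Real.norm_eq_abs, Real.norm_eq_abs, abs_of_pos (Real.exp_pos _), mul_comm]
    have := hb u hu
    gcongr

theorem exp_int {δ : ℝ} (hδ : 0 < δ) : ∫ u : ℝ in Ioi 0, Real.exp (-δ * u) = 1 / δ := by
  rw [integral_exp_mul_Ioi (a := -δ) (by linarith) 0]
  simp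

theorem Am_dist {f g : ℝ → ℝ} (hf : ContinuousOn f (Ioi 0)) (hg : ContinuousOn g (Ioi 0)) {B : ℝ}
    (hfb : ∀ u, 0 < u → |f u| ≤ B) (hgb : ∀ u, 0 < u → |g u| ≤ B) {C D : ℝ}
    (h : ∀ u, 0 < u → |f u - g u| ≤ C + D * Real.exp (-1 * u)) {δ : ℝ} (hδ : 0 < δ) :
    |Am f δ - Am g δ| ≤ C + D * (δ / (1 + δ)) := by
  have i1 := Am_int hf hfb hδ
  have i2 := Am_int hg hgb hδ
  have e : Am f δ - Am g δ = δ * ∫ u : ℝ in Ioi 0, Real.exp (-δ * u) * (f u - g u) := by
    unfold Am
    rw [← mul_sub, ← integral_sub i1 i2]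
    congr 1
    refine integral_congr_ae (Eventually.of_forall fun u => ?_)
    simp only
    ring
  rw [e, abs_mul, abs_of_pos hδ]
  have h1 : IntegrableOn (fun u : ℝ => C * Real.exp (-δ * u) + D * Real.exp (-(1 + δ) * u)) (Ioi 0) :=
    ((integrableOn_exp_mul_Ioi (a := -δ) (by linarith) 0).const_mul _).add
      ((integrableOn_exp_mul_Ioi (a := -(1 + δ)) (by linarith) 0).const_mul _)
  have h2 : |∫ u : ℝ in Ioi 0, Real.exp (-δ * u) * (f u - g u)| ≤
      ∫ u : ℝ in Ioi 0, (C * Real.exp (-δ * u) + D * Real.exp (-(1 + δ) * u)) := by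
    rw [← Real.norm_eq_abs]
    refine norm_integral_le_of_norm_le h1 ?_
    refine (ae_restrict_mem measurableSet_Ioi).mono fun u hu => ?_
    rw [norm_mul, Real.norm_eq_abs, Real.norm_eq_abs, abs_of_pos (Real.exp_pos _)]
    have h3 := h u hu
    have h4 : Real.exp (-(1 + δ) * u) = Real.exp (-δ * u) * Real.exp (-1 * u) := by
      rw [← Real.exp_add]
      congr 1
      ring
    rw [h4]
    calc Real.exp (-δ * u) * |f u - g u| ≤ Real.exp (-δ * u) * (C + D * Real.exp (-1 * u)) := by gcongr
      _ = _ := by ring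
  have h3 : ∫ u : ℝ in Ioi 0, (C * Real.exp (-δ * u) + D * Real.exp (-(1 + δ) * u)) = C * (1 / δ) + D * (1 / (1 + δ)) := by
    rw [integral_add ((integrableOn_exp_mul_Ioi (a := -δ) (by linarith) 0).const_mul _)
      ((integrableOn_exp_mul_Ioi (a := -(1 + δ)) (by linarith) 0).const_mul _), integral_const_mul, integral_const_mul,
      exp_int hδ, exp_int (by linarith)]
  rw [h3] at h2
  calc δ * |∫ u : ℝ in Ioi 0, Real.exp (-δ * u) * (f u - g u)| ≤ δ * (C * (1 / δ) + D * (1 / (1 + δ))) := by gcongr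
    _ = C + D * (δ / (1 + δ)) := by field_simp

/-- functions with the same behaviour at infinity have the same mean -/
theorem Am_tail {f g : ℝ → ℝ} (hf : ContinuousOn f (Ioi 0)) (hg : ContinuousOn g (Ioi 0)) {B : ℝ}
    (hfb : ∀ u, 0 < u → |f u| ≤ B) (hgb : ∀ u, 0 < u → |g u| ≤ B)
    (h : Tendsto (fun u => f u - g u) atTop (𝓝 0)) : Tendsto (fun δ => Am f δ - Am g δ) (𝓝[>] 0) (𝓝 0) := by
  have hB : 0 ≤ B := (abs_nonneg _).trans (hfb 1 one_pos)
  rw [Metric.tendsto_nhds]
  intro ε hε
  rw [Metric.tendsto_atTop] at h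
  obtain ⟨U, hU⟩ := h (ε / 2) (by linarith)
  have h1 : ∀ u, 0 < u → |f u - g u| ≤ ε / 2 + (2 * B * Real.exp U) * Real.exp (-1 * u) := by
    intro u hu
    rcases le_total U u with h2 | h2
    · have h3 := hU u h2
      rw [dist_zero_right, Real.norm_eq_abs] at h3
      have : 0 ≤ 2 * B * Real.exp U * Real.exp (-1 * u) := by positivity
      linarith
    · have h3 : |f u - g u| ≤ 2 * B := by
        refine (abs_sub _ _).trans ?_
        linarith [hfb u hu, hgb u hu]
      have h4 : 1 ≤ Real.exp U * Real.exp (-1 * u) := by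
        rw [← Real.exp_add]
        exact Real.one_le_exp (by linarith)
      have h5 : 2 * B ≤ 2 * B * (Real.exp U * Real.exp (-1 * u)) := le_mul_of_one_le_right (by positivity) h4
      linarith
  have h2 : Tendsto (fun δ : ℝ => (2 * B * Real.exp U) * (δ / (1 + δ))) (𝓝[>] 0) (𝓝 0) := by
    have h3 : ContinuousAt (fun δ : ℝ => (2 * B * Real.exp U) * (δ / (1 + δ))) 0 := by
      have h4 : (1 : ℝ) + 0 ≠ 0 := by norm_num
      fun_prop (disch := exact h4)
    have h5 := h3.tendsto
    simp only [zero_div, mul_zero] at h5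
    exact h5.mono_left nhdsWithin_le_nhds
  filter_upwards [h2.eventually (gt_mem_nhds (half_pos hε)), self_mem_nhdsWithin] with δ h3 h4
  rw [dist_zero_right, Real.norm_eq_abs]
  have h5 := Am_dist hf hg hfb hgb h1 h4
  linarith

theorem cosh_lip {B x y : ℝ} (hx : |x| ≤ B) (hy : |y| ≤ B) : |Real.cosh x - Real.cosh y| ≤ Real.cosh B * |x - y| := by
  have hB : 0 ≤ B := (abs_nonneg _).trans hx
  have h := Convex.norm_image_sub_le_of_norm_hasDerivWithin_le (f := Real.cosh) (f' := Real.sinh) (C := Real.cosh B)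
    (s := Icc (-B) B) (x := y) (y := x) (fun z _ => (Real.hasDerivAt_cosh z).hasDerivWithinAt) (fun z hz => by
      rw [Real.norm_eq_abs, Real.abs_sinh]
      refine (Real.sinh_lt_cosh _).le.trans ?_
      rw [Real.cosh_le_cosh, abs_abs, abs_of_nonneg hB]
      exact abs_le.2 ⟨hz.1, hz.2⟩) (convex_Icc _ _) (abs_le.1 hy) (abs_le.1 hx)
  rwa [Real.norm_eq_abs, Real.norm_eq_abs] at h

variable {ι : Type} (w t : ι → ℝ)

/-- the infinite sum -/
noncomputable def FI (u : ℝ) : ℝ := ∑' i, 2 * w i * Real.cos (t i * u)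

theorem term_le (hw : ∀ i, 0 < w i) (i : ι) (u : ℝ) : ‖2 * w i * Real.cos (t i * u)‖ ≤ 2 * w i := by
  have := hw i
  rw [norm_mul, Real.norm_eq_abs, Real.norm_eq_abs, abs_of_pos (by positivity)]
  exact mul_le_of_le_one_right (by positivity) (Real.abs_cos_le_one _)

theorem FS_cont (S : Finset ι) : Continuous (FS w t S) := by
  unfold FS
  fun_prop

variable {w} (hw : ∀ i, 0 < w i) (hs : Summable w)

include hw hs

theorem FI_cont : Continuous (FI w t) := by
  unfold FI
  exact continuous_tsum (fun i => by fun_prop) (hs.mul_left 2) (fun i u => term_le w t hw i u)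

theorem FS_le (S : Finset ι) (u : ℝ) : |FS w t S u| ≤ ∑' i, 2 * w i := by
  unfold FS
  calc |∑ i ∈ S, 2 * w i * Real.cos (t i * u)| ≤ ∑ i ∈ S, |2 * w i * Real.cos (t i * u)| := Finset.abs_sum_le_sum_abs _ _
    _ ≤ ∑ i ∈ S, 2 * w i := Finset.sum_le_sum fun i _ => term_le w t hw i u
    _ ≤ _ := (hs.mul_left 2).sum_le_tsum _ fun i _ => by have := hw i; positivity

theorem FI_le (u : ℝ) : |FI w t u| ≤ ∑' i, 2 * w i := by
  unfold FI
  rw [← Real.norm_eq_abs]
  have h1 : Summable fun i => ‖2 * w i * Real.cos (t i * u)‖ :=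
    Summable.of_nonneg_of_le (fun i => norm_nonneg _) (fun i => term_le w t hw i u) (hs.mul_left 2)
  exact (norm_tsum_le_tsum_norm h1).trans (h1.tsum_le_tsum (fun i => term_le w t hw i u) (hs.mul_left 2))

/-- uniform approximation of the means -/
theorem Am_unif : TendstoUniformlyOn (fun (S : Finset ι) (δ : ℝ) => Am (fun u => Real.cosh (FS w t S u)) δ)
    (Am fun u => Real.cosh (FI w t u)) atTop (Ioi 0) := by
  set B := ∑' i, 2 * w i with hB
  have hB0 : 0 ≤ B := tsum_nonneg fun i => by have := hw i; positivity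
  have h1 := tendstoUniformly_tsum (hs.mul_left 2) (fun i u => term_le w t hw i u)
  rw [Metric.tendstoUniformly_iff] at h1
  rw [Metric.tendstoUniformlyOn_iff]
  intro ε hε
  have hc := Real.cosh_pos B
  have h2 := h1 (ε / 2 / Real.cosh B) (by positivity)
  filter_upwards [h2] with S hS δ hδ
  have hδ' : (0 : ℝ) < δ := hδ
  have h3 : ∀ u : ℝ, 0 < u → |Real.cosh (FI w t u) - Real.cosh (FS w t S u)| ≤ ε / 2 + 0 * Real.exp (-1 * u) := by
    intro u _
    have h4 := hS u
    rw [Real.dist_eq] at h4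
    have h5 := cosh_lip (FI_le t hw hs u) (FS_le t hw hs S u)
    have h6 : |FI w t u - FS w t S u| ≤ ε / 2 / Real.cosh B := h4.le
    rw [zero_mul, add_zero]
    refine h5.trans ?_
    calc Real.cosh B * |FI w t u - FS w t S u| ≤ Real.cosh B * (ε / 2 / Real.cosh B) := by gcongr
      _ = ε / 2 := by field_simp
  have hb : ∀ x : ℝ, |x| ≤ B → |Real.cosh x| ≤ Real.cosh B := by
    intro x hx
    rw [abs_of_pos (Real.cosh_pos x), Real.cosh_le_cosh, abs_of_nonneg hB0]
    exact hx
  have h7 := Am_dist (Real.continuous_cosh.comp (FI_cont t hw hs)).continuousOn (Real.continuous_cosh.comp (FS_cont w t S)).continuousOn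
    (fun u _ => hb _ (FI_le t hw hs u)) (fun u _ => hb _ (FS_le t hw hs S u)) h3 hδ'
  rw [Real.dist_eq]
  rw [zero_mul, add_zero] at h7
  have h8 : |Am (fun u => Real.cosh (FI w t u)) δ - Am (fun u => Real.cosh (FS w t S u)) δ| ≤ ε / 2 := h7
  linarith

theorem MM_le (S : Finset ι) : MM w t S ≤ Real.cosh (∑' i, 2 * w i) := by
  set B := ∑' i, 2 * w i with hB
  have hB0 : 0 ≤ B := tsum_nonneg fun i => by have := hw i; positivity
  refine le_of_tendsto (MM_tendsto w t hw S) ?_
  filter_upwards [self_mem_nhdsWithin] with δ hδ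
  have hδ' : (0 : ℝ) < δ := hδ
  have h0 : ∀ u : ℝ, 0 < u → |Real.cosh (FS w t S u) - 0| ≤ Real.cosh B + 0 * Real.exp (-1 * u) := by
    intro u _
    rw [sub_zero, abs_of_pos (Real.cosh_pos _), zero_mul, add_zero, Real.cosh_le_cosh, abs_of_nonneg hB0]
    exact FS_le t hw hs S u
  have h1 := Am_dist (B := Real.cosh B) (Real.continuous_cosh.comp (FS_cont w t S)).continuousOn (continuous_const (y := (0 : ℝ))).continuousOn
    (fun u hu => by have := h0 u hu; rw [sub_zero, zero_mul, add_zero] at this; exact this)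
    (fun u _ => by simp [(Real.cosh_pos B).le]) h0 hδ'
  rw [zero_mul, add_zero] at h1
  have h2 : Am (fun _ => (0 : ℝ)) δ = 0 := by simp [Am]
  rw [h2, sub_zero] at h1
  exact (le_abs_self _).trans h1

/-- the ratio -/
noncomputable def rho (w t : ι → ℝ) (S : Finset ι) : ℝ := MM w t S / ∏ i ∈ S, J (w i)

omit hs in
omit hw in
theorem prodJ_pos (S : Finset ι) : 1 ≤ ∏ i ∈ S, J (w i) := by
  classical
  induction S using Finset.induction_on with
  | empty => simp
  | insert j S hj ih =>
    rw [Finset.prod_insert hj]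
    nlinarith [one_le_J (w j)]

omit hs in
omit hw in
theorem rho_empty : rho w t ∅ = 1 := by
  unfold rho
  rw [MM_eq w t (good_empty w t)]
  unfold Mn
  simp

omit hs in
theorem rho_ins [DecidableEq ι] {S : Finset ι} {j : ι} (hj : j ∉ S) : rho w t S ≤ rho w t (insert j S) := by
  have h1 := MM_ge w t hw hj
  have h2 := prodJ_pos (w := w) S
  have h3 := one_le_J (w j)
  unfold rho
  rw [Finset.prod_insert hj, div_le_div_iff₀ (by positivity) (by positivity)]
  nlinarith

omit hs in
theorem rho_ins_eq [DecidableEq ι] {S : Finset ι} {j : ι} (hj : j ∉ S) (hli : LinearIndepOn ℚ t (insert j S : Finset ι)) :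
    rho w t (insert j S) = rho w t S := by
  have h1 := MM_ins_eq w t hw hj hli
  have h2 := prodJ_pos (w := w) S
  have h3 := one_le_J (w j)
  unfold rho
  rw [Finset.prod_insert hj, h1]
  field_simp

omit hs in
theorem rho_ins_lt [DecidableEq ι] {S : Finset ι} {j : ι} (hj : j ∉ S) (hli : LinearIndepOn ℚ t (S : Set ι))
    (hld : ¬LinearIndepOn ℚ t (insert j S : Finset ι)) (ht : t j ≠ 0) : rho w t S < rho w t (insert j S) := by
  have h1 := MM_ins_lt w t hw hj hli hld ht
  have h2 := prodJ_pos (w := w) S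
  have h3 := one_le_J (w j)
  unfold rho
  rw [Finset.prod_insert hj, div_lt_div_iff₀ (by positivity) (by positivity)]
  nlinarith

omit hs in
theorem rho_mono : Monotone (rho w t) := by
  classical
  rw [Finset.monotone_iff_forall_le_insert]
  intro S a ha
  exact rho_ins t hw ha

theorem rho_bdd : BddAbove (Set.range (rho w t)) := by
  refine ⟨Real.cosh (∑' i, 2 * w i), ?_⟩
  rintro _ ⟨S, rfl⟩
  have h2 := prodJ_pos (w := w) S
  have h1 := MM_le t hw hs S
  unfold rho
  rw [div_le_iff₀ (by positivity)]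
  have := Real.cosh_pos (∑' i, 2 * w i)
  nlinarith

theorem J_mult : Multipliable fun i => J (w i) := by
  have h1 : Summable fun i => J (w i) - 1 := by
    set W := ∑' i, w i with hW
    have hle : ∀ i, w i ≤ W := fun i => hs.le_tsum i fun k _ => (hw k).le
    refine Summable.of_nonneg_of_le (fun i => by linarith [one_le_J (w i)]) (fun i => ?_) (hs.mul_left (W * Real.exp (W ^ 2)))
    have h2 := J_le (w i)
    have h3 : Real.exp (w i ^ 2) - 1 ≤ w i ^ 2 * Real.exp (w i ^ 2) := by
      have h4 := Real.add_one_le_exp (-(w i ^ 2))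
      have h5 : Real.exp (-(w i ^ 2)) * Real.exp (w i ^ 2) = 1 := by
        rw [← Real.exp_add]
        simp
      have h6 := Real.exp_pos (w i ^ 2)
      nlinarith
    have h7 : w i ^ 2 ≤ W * w i := by nlinarith [hle i, hw i]
    have h8 : Real.exp (w i ^ 2) ≤ Real.exp (W ^ 2) := by
      rw [Real.exp_le_exp]
      have := hle i
      have := hw i
      gcongr
    calc J (w i) - 1 ≤ w i ^ 2 * Real.exp (w i ^ 2) := by linarith
      _ ≤ (W * w i) * Real.exp (W ^ 2) := by
        have := hw i
        have hW0 : 0 ≤ W := by linarith [hle i]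
        gcongr
      _ = _ := by ring
  have h2 := Real.multipliable_one_add_of_summable h1
  refine h2.congr fun i => ?_
  ring

/-- **The mean value of `cosh` of a sum of cosines.** -/
theorem main_mean (ht : ∀ i, t i ≠ 0) : ∃ L : ℝ, Tendsto (Am fun u => Real.cosh (FI w t u)) (𝓝[>] 0) (𝓝 L) ∧
    ∏' i, J (w i) ≤ L ∧ (L = ∏' i, J (w i) ↔ LinearIndependent ℚ t) := by
  classical
  set R := ⨆ S, rho w t S with hR
  have hρ := tendsto_atTop_ciSup (rho_mono t hw) (rho_bdd t hw hs)
  have hP := (J_mult hw hs).hasProd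
  have hP' : Tendsto (fun S : Finset ι => ∏ i ∈ S, J (w i)) atTop (𝓝 (∏' i, J (w i))) := hP
  have hM : Tendsto (fun S : Finset ι => MM w t S) atTop (𝓝 (R * ∏' i, J (w i))) := by
    refine (hρ.mul hP').congr fun S => ?_
    have h2 := prodJ_pos (w := w) S
    unfold rho
    field_simp
  have hC : 1 ≤ ∏' i, J (w i) := ge_of_tendsto' hP' fun S => prodJ_pos S
  have hR1 : 1 ≤ R := by
    rw [← rho_empty t (w := w)]
    exact le_ciSup (rho_bdd t hw hs) ∅
  refine ⟨R * ∏' i, J (w i), ?_, ?_, ?_⟩
  · have h1 := (tendstoUniformlyOn_iff_tendstoUniformlyOnFilter.1 (Am_unif t hw hs))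
    have h2 : TendstoUniformlyOnFilter (fun (S : Finset ι) (δ : ℝ) => Am (fun u => Real.cosh (FS w t S u)) δ)
        (Am fun u => Real.cosh (FI w t u)) atTop (𝓝[>] 0) := h1.mono_right (by
          rw [Filter.le_principal_iff]
          exact self_mem_nhdsWithin)
    exact h2.tendsto_of_eventually_tendsto (Eventually.of_forall fun S => MM_tendsto w t hw S) hM
  · nlinarith
  · have hC0 : 0 < ∏' i, J (w i) := by linarith
    have e1 : R * ∏' i, J (w i) = ∏' i, J (w i) ↔ R = 1 := by
      constructor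
      · intro h
        have : (R - 1) * ∏' i, J (w i) = 0 := by linarith
        rcases mul_eq_zero.1 this with h | h
        · linarith
        · exact absurd h hC0.ne'
      · intro h
        rw [h, one_mul]
    rw [e1]
    constructor
    · intro hR1
      by_contra hld
      have hex : ∃ (S : Finset ι) (j : ι), j ∉ S ∧ LinearIndepOn ℚ t (S : Set ι) ∧ ¬LinearIndepOn ℚ t (insert j S : Finset ι) := by
        by_contra hcon
        push Not at hcon
        apply hld
        have hall : ∀ S : Finset ι, LinearIndepOn ℚ t (S : Set ι) := by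
          intro S
          induction S using Finset.induction_on with
          | empty => simp
          | insert j S hj ih => exact hcon S j hj ih
        rw [linearIndependent_iff']
        intro s g hg i hi
        exact (linearIndepOn_finset_iff.1 (hall s)) g hg i hi
      obtain ⟨S, j, hj, h1, h2⟩ := hex
      have h3 := rho_ins_lt t hw hj h1 h2 (ht j)
      have h4 : 1 ≤ rho w t S := by
        rw [← rho_empty t (w := w)]
        exact rho_mono t hw (Finset.empty_subset S)
      have h5 : rho w t (insert j S) ≤ R := le_ciSup (rho_bdd t hw hs) _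
      linarith
    · intro hli
      have hall : ∀ S : Finset ι, rho w t S = 1 := by
        intro S
        induction S using Finset.induction_on with
        | empty => exact rho_empty t
        | insert j S hj ih =>
          rw [rho_ins_eq t hw hj (hli.linearIndepOn _), ih]
      rw [hR]
      simp_rw [hall]
      exact ciSup_const

end Run7.h278.LM
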