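import Pool.Agent.Run7.h278.LM.Off
import Pool.Agent.Run7.h278.LM.Lim

set_option autoImplicit false

/-!
# The exponential moments of the function of the theorem
-/

namespace Run7.h278.LM

open Complex Filter Topology MeasureTheory Set Pool.Agent.H24R2.JP Run7.h278.WL Run7.h278.LI
open scoped ENNReal

/-- the Abel mean with values in `[0, ∞]` -/
noncomputable def ME (s δ : ℝ) : ℝ≥0∞ :=
  ∫⁻ u in Ioi (0 : ℝ), ENNReal.ofReal (δ * Real.exp (-δ * u) * Real.cosh (s * aa u))

theorem aa_near (hRH : RiemannHypothesis) : ∃ K : ℝ, 0 ≤ K ∧ ∀ u : ℝ, 0 < u → |aa u - FFz u| ≤ K * Real.exp (-u / 2) := by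
  refine ⟨(∑' k : ℕ, 1 / ((2 * (k : ℝ) + 2) * (2 * k + 3))) + Real.log (2 * Real.pi), ?_, fun u hu => ?_⟩
  · have h1 : 0 ≤ Real.log (2 * Real.pi) := Real.log_nonneg (by linarith [Real.pi_gt_three])
    have h2 : 0 ≤ ∑' k : ℕ, 1 / ((2 * (k : ℝ) + 2) * (2 * k + 3)) := tsum_nonneg fun k => by positivity
    linarith
  · have h := explicit hRH hu
    unfold DD at h
    have h1 : 0 ≤ Real.log (2 * Real.pi) := Real.log_nonneg (by linarith [Real.pi_gt_three])
    have hb : ∀ k : ℕ, 1 / ((2 * (k : ℝ) + 2) * (2 * k + 3)) * Real.exp (-(2 * k + 5 / 2) * u) ≤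
        1 / ((2 * (k : ℝ) + 2) * (2 * k + 3)) * Real.exp (-u / 2) := by
      intro k
      have hk : (0 : ℝ) ≤ k := Nat.cast_nonneg k
      have : Real.exp (-(2 * k + 5 / 2) * u) ≤ Real.exp (-u / 2) := by
        rw [Real.exp_le_exp]
        nlinarith
      gcongr
    have hs1 : Summable fun k : ℕ => 1 / ((2 * (k : ℝ) + 2) * (2 * k + 3)) * Real.exp (-u / 2) := ck_summable.mul_right _
    have hs2 : Summable fun k : ℕ => 1 / ((2 * (k : ℝ) + 2) * (2 * k + 3)) * Real.exp (-(2 * k + 5 / 2) * u) :=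
      Summable.of_nonneg_of_le (fun k => by positivity) hb hs1
    have hR : RR u ≤ (∑' k : ℕ, 1 / ((2 * (k : ℝ) + 2) * (2 * k + 3))) * Real.exp (-u / 2) := by
      unfold RR
      rw [← tsum_mul_right]
      exact hs2.tsum_le_tsum hb hs1
    have hR0 : 0 ≤ RR u := tsum_nonneg fun k => by positivity
    have e : aa u - FFz u = Real.log (2 * Real.pi) * Real.exp (-u / 2) - RR u := by linarith
    rw [e]
    have h3 : 0 ≤ Real.log (2 * Real.pi) * Real.exp (-u / 2) := by positivity
    have h4 : 0 ≤ (∑' k : ℕ, 1 / ((2 * (k : ℝ) + 2) * (2 * k + 3))) * Real.exp (-u / 2) := hR0.trans hR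
    rw [abs_le]
    constructor <;> nlinarith

/-- on RH the function of the theorem is bounded -/
theorem aa_bdd (hRH : RiemannHypothesis) : ∃ B : ℝ, 0 ≤ B ∧ (∀ u : ℝ, |FFz u| ≤ B) ∧ ∀ u : ℝ, 0 < u → |aa u| ≤ B := by
  obtain ⟨K, hK, h⟩ := aa_near hRH
  have hF : ∀ u : ℝ, |FFz u| ≤ ∑' t : TI, 2 * WW t := fun u => FI_le (w := WW) (fun t : TI => (t : ℝ)) WW_pos WW_summable u
  have h0 : 0 ≤ ∑' t : TI, 2 * WW t := tsum_nonneg fun t => by have := WW_pos t; positivity
  refine ⟨∑' t : TI, 2 * WW t + K, by linarith, fun u => by linarith [hF u], fun u hu => ?_⟩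
  have h1 := h u hu
  have h2 : Real.exp (-u / 2) ≤ 1 := by
    rw [Real.exp_le_one_iff]
    linarith
  have h3 : |aa u| ≤ |aa u - FFz u| + |FFz u| := by
    calc |aa u| = |(aa u - FFz u) + FFz u| := by rw [sub_add_cancel]
      _ ≤ _ := abs_add_le _ _
  nlinarith [hF u]

/-- on RH the mean for the function is the mean for the sum of cosines -/
theorem aa_mean (hRH : RiemannHypothesis) {s : ℝ} (hs : 0 < s) {L : ℝ}
    (h : Tendsto (Am fun u => Real.cosh (s * FFz u)) (𝓝[>] 0) (𝓝 L)) :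
    Tendsto (ME s) (𝓝[>] 0) (𝓝 (ENNReal.ofReal L)) ∧ ∀ δ : ℝ, 0 < δ → ME s δ < ⊤ := by
  obtain ⟨K, hK, hn⟩ := aa_near hRH
  obtain ⟨B, hB, hF, ha⟩ := aa_bdd hRH
  have hbb : ∀ x : ℝ, |x| ≤ B → |Real.cosh (s * x)| ≤ Real.cosh (s * B) := by
    intro x hx
    rw [abs_of_pos (Real.cosh_pos _), Real.cosh_le_cosh, abs_mul, abs_mul, abs_of_pos hs, abs_of_nonneg hB]
    gcongr
  have hc1 : ContinuousOn (fun u => Real.cosh (s * aa u)) (Ioi 0) :=
    (Real.continuous_cosh.comp (continuous_const.mul aa_cont)).continuousOn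
  have hc2 : ContinuousOn (fun u => Real.cosh (s * FFz u)) (Ioi 0) :=
    (Real.continuous_cosh.comp (continuous_const.mul FFz_cont)).continuousOn
  have hdiff : Tendsto (fun u => Real.cosh (s * aa u) - Real.cosh (s * FFz u)) atTop (𝓝 0) := by
    have h1 : Tendsto (fun u : ℝ => Real.cosh (s * B) * (s * (K * Real.exp (-u / 2)))) atTop (𝓝 0) := by
      have h2 : Tendsto (fun u : ℝ => Real.exp (-u / 2)) atTop (𝓝 0) := by
        refine Real.tendsto_exp_atBot.comp ?_
        have : (fun u : ℝ => -u / 2) = fun u => (-(1 / 2)) * u := by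
          funext u
          ring
        rw [this]
        exact tendsto_id.const_mul_atTop_of_neg (by norm_num)
      have h3 := ((h2.const_mul K).const_mul s).const_mul (Real.cosh (s * B))
      simpa using h3
    rw [tendsto_zero_iff_norm_tendsto_zero]
    refine squeeze_zero' (Eventually.of_forall fun u => norm_nonneg _) ?_ h1
    filter_upwards [eventually_gt_atTop 0] with u hu
    rw [Real.norm_eq_abs]
    have h4 : |s * aa u| ≤ s * B := by
      rw [abs_mul, abs_of_pos hs]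
      have := ha u hu
      gcongr
    have h5 : |s * FFz u| ≤ s * B := by
      rw [abs_mul, abs_of_pos hs]
      have := hF u
      gcongr
    refine (cosh_lip h4 h5).trans ?_
    rw [← mul_sub, abs_mul, abs_of_pos hs]
    have h6 := hn u hu
    have := Real.cosh_pos (s * B)
    gcongr
  have h1 := Am_tail hc1 hc2 (fun u hu => hbb _ (ha u hu)) (fun u _ => hbb _ (hF u)) hdiff
  have h2 : Tendsto (Am fun u => Real.cosh (s * aa u)) (𝓝[>] 0) (𝓝 L) := by
    have := h1.add h
    rw [zero_add] at this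
    refine this.congr fun δ => ?_
    ring
  have h3 : ∀ δ : ℝ, 0 < δ → ME s δ = ENNReal.ofReal (Am (fun u => Real.cosh (s * aa u)) δ) := by
    intro δ hδ
    have hi := (Am_int hc1 (fun u hu => hbb _ (ha u hu)) hδ).const_mul δ
    unfold ME Am
    rw [← integral_const_mul, ofReal_integral_eq_lintegral_ofReal hi (Eventually.of_forall fun u => by
      have := Real.cosh_pos (s * aa u)
      show 0 ≤ δ * (Real.exp (-δ * u) * Real.cosh (s * aa u))
      positivity)]
    refine lintegral_congr fun u => ?_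
    rw [mul_assoc]
  refine ⟨?_, fun δ hδ => by rw [h3 δ hδ]; exact ENNReal.ofReal_lt_top⟩
  refine (ENNReal.tendsto_ofReal h2).congr' ?_
  filter_upwards [self_mem_nhdsWithin] with δ hδ
  exact (h3 δ hδ).symm

/-- without RH the means are infinite -/
theorem off_top (hRH : ¬RiemannHypothesis) {s : ℝ} (hs : 0 < s) : ∃ δ₀ : ℝ, 0 < δ₀ ∧ ∀ δ : ℝ, 0 < δ → δ < δ₀ → ME s δ = ⊤ := by
  obtain ⟨ρ, h1, h2⟩ := off_zero hRH
  refine ⟨2 * (ρ.re - 1 / 2), by linarith, fun δ hδ hlt => ?_⟩
  by_contra htop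
  refine no_zero hδ ?_ (by linarith : 1 / 2 + δ / 2 < ρ.re) h2
  have hc : Continuous fun u : ℝ => δ * Real.exp (-δ * u) * Real.cosh (s * aa u) := by
    have := aa_cont
    have h3 : Continuous fun u => Real.cosh (s * aa u) := Real.continuous_cosh.comp (continuous_const.mul aa_cont)
    exact (by fun_prop : Continuous fun u : ℝ => δ * Real.exp (-δ * u)).mul h3
  have hint : IntegrableOn (fun u : ℝ => δ * Real.exp (-δ * u) * Real.cosh (s * aa u)) (Ioi 0) := by
    refine ⟨hc.aestronglyMeasurable, ?_⟩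
    rw [hasFiniteIntegral_iff_ofReal (Eventually.of_forall fun u => by
      have := Real.cosh_pos (s * aa u)
      show 0 ≤ δ * Real.exp (-δ * u) * Real.cosh (s * aa u)
      positivity)]
    exact lt_top_iff_ne_top.2 htop
  have hc2 : Continuous fun u : ℝ => Real.exp (-δ * u) * aa u ^ 2 := by
    have := aa_cont
    fun_prop
  refine Integrable.mono' (hint.const_mul (4 / (s ^ 2 * δ))) hc2.aestronglyMeasurable (Eventually.of_forall fun u => ?_)
  rw [Real.norm_eq_abs, abs_of_nonneg (by positivity)]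
  have h3 : (s * aa u) ^ 2 / 4 ≤ Real.cosh (s * aa u) := by
    rw [← Real.cosh_abs, ← sq_abs]
    have h4 := Real.quadratic_le_exp_of_nonneg (abs_nonneg (s * aa u))
    have h5 : Real.cosh |s * aa u| = (Real.exp |s * aa u| + Real.exp (-|s * aa u|)) / 2 := Real.cosh_eq _
    have h6 := Real.exp_pos (-|s * aa u|)
    have h7 := abs_nonneg (s * aa u)
    linarith
  have hs2 : 0 < s ^ 2 := by positivity
  calc Real.exp (-δ * u) * aa u ^ 2 = 4 / (s ^ 2 * δ) * (δ * Real.exp (-δ * u) * ((s * aa u) ^ 2 / 4)) := by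
        field_simp
    _ ≤ 4 / (s ^ 2 * δ) * (δ * Real.exp (-δ * u) * Real.cosh (s * aa u)) := by gcongr

end Run7.h278.LM
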