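import Pool.Agent.H370R2.Digamma
import Pool.Agent.Run7.h278.WL.ZZ

set_option autoImplicit false

/-!
# The digamma function and the logarithmic derivative of the completed zeta function
-/

namespace Run7.h278.LM

open Complex Filter Topology Pool.Agent.H24R2.JP Run7.h278.WL Run7.h278.LI

theorem hs_congr {ι E : Type*} [AddCommMonoid E] [TopologicalSpace E] {f g : ι → E} {a : E} (h : HasSum g a)
    (e : ∀ i, f i = g i) : HasSum f a := by
  rw [funext e]
  exact h

/-- the series of the digamma function -/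
theorem psi_series {s : ℂ} (hs : 0 < s.re) :
    HasSum (fun k : ℕ => 1 / ((k : ℂ) + 1) - 1 / (s + k)) (logDeriv Gamma s + Real.eulerMascheroniConstant) := by
  have h1 := H370.DG.logDeriv_Gamma hs
  have h2 := H370.DG.logDeriv_Gamma (s := 1) (by simp)
  have h3 : logDeriv Gamma 1 = -Real.eulerMascheroniConstant := digamma_one
  have s1 := (H370.DG.summable_gd (s := s) (by linarith)).hasSum
  have s2 := (H370.DG.summable_gd (s := 1) (by simp)).hasSum
  have h4 := s1.sub s2
  have e1 : ∑' n, H370.DG.gd n s = logDeriv Gamma s + 1 / s + 1 / (s + 1) := by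
    rw [h1]; ring
  have e2 : ∑' n, H370.DG.gd n 1 = -Real.eulerMascheroniConstant + 1 + 1 / 2 := by
    rw [h3] at h2
    rw [h2]
    norm_num
    ring
  rw [e1, e2] at h4
  rw [← hasSum_nat_add_iff' 2]
  have e3 : (fun n : ℕ => 1 / (((n + 2 : ℕ) : ℂ) + 1) - 1 / (s + ((n + 2 : ℕ) : ℂ))) =
      fun n : ℕ => H370.DG.gd n s - H370.DG.gd n 1 := by
    funext n
    unfold H370.DG.gd
    push_cast
    rw [show (1 : ℂ) + ((n : ℂ) + 2) = (n : ℂ) + 2 + 1 by ring]
    ring
  rw [e3]
  convert h4 using 1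
  rw [Finset.sum_range_succ, Finset.sum_range_one]
  push_cast
  norm_num
  ring

/-- half of the digamma function at `1 + w / 2` -/
theorem half_psi {w : ℂ} (hw : 0 < w.re) :
    HasSum (fun k : ℕ => w / ((2 * (k : ℂ) + 2) * (2 * k + 2 + w)))
      ((logDeriv Gamma (w / 2 + 1) + Real.eulerMascheroniConstant) / 2) := by
  have h1 := (psi_series (s := w / 2 + 1) (by
    simp only [Complex.add_re, Complex.one_re]
    have : (w / 2).re = w.re / 2 := by simp
    rw [this]
    positivity)).div_const 2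
  refine hs_congr h1 fun k => ?_
  have hk : (0 : ℝ) ≤ k := Nat.cast_nonneg k
  have n1 : (2 * (k : ℂ) + 2) ≠ 0 := by
    intro h
    have := congrArg Complex.re h
    simp at this
    linarith
  have n2 : (2 * (k : ℂ) + 2 + w) ≠ 0 := by
    intro h
    have := congrArg Complex.re h
    simp at this
    linarith
  have n3 : ((k : ℂ) + 1) ≠ 0 := by
    intro h
    apply n1
    linear_combination 2 * h
  have n4 : (w / 2 + 1 + (k : ℂ)) ≠ 0 := by
    intro h
    apply n2
    linear_combination 2 * h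
  rw [div_sub_div _ _ n3 n4, div_div, div_eq_div_iff (mul_ne_zero n1 n2) (mul_ne_zero (mul_ne_zero n3 n4) two_ne_zero)]
  ring

/-- the digamma function at `w / 2 + 1` and at `w / 2` -/
theorem psi_shift {w : ℂ} (hw : 0 < w.re) : logDeriv Gamma (w / 2 + 1) = logDeriv Gamma (w / 2) + 2 / w := by
  have h := digamma_apply_add_one (w / 2) (by
    intro m h
    have := congrArg Complex.re h
    have e : (w / 2).re = w.re / 2 := by simp
    rw [e] at this
    simp at this
    have hm : (0 : ℝ) ≤ m := Nat.cast_nonneg m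
    linarith)
  unfold digamma at h
  rw [h, inv_div]

/-- the constant -/
theorem sum_log2 : HasSum (fun k : ℕ => 1 / ((2 * (k : ℂ) + 2) * (2 * k + 3))) ((1 - Real.log 2 : ℝ) : ℂ) := by
  have h1 := half_psi (w := 1) (by simp)
  rw [psi_shift (by simp)] at h1
  have h2 : logDeriv Gamma (1 / 2) = -2 * Complex.log 2 - Real.eulerMascheroniConstant := digamma_one_half
  rw [h2] at h1
  have e : ((-2 * Complex.log 2 - Real.eulerMascheroniConstant + 2 / 1 + Real.eulerMascheroniConstant) / 2 : ℂ) =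
      ((1 - Real.log 2 : ℝ) : ℂ) := by
    have : Complex.log 2 = ((Real.log 2 : ℝ) : ℂ) := by
      rw [Complex.ofReal_log (by norm_num)]
      norm_num
    rw [this]
    push_cast
    ring
  rw [e] at h1
  refine hs_congr h1 fun k => ?_
  congr 1
  ring

/-- the completed function near `w` -/
noncomputable def Xf (w : ℂ) : ℂ := XX (w - 1 / 2)

theorem Xf_Fs (w : ℂ) : Xf w = Fs (w * (w - 1)) := by
  unfold Xf Fs
  rw [← b1.2.1]
  congr 1
  ring

theorem Xf_logDeriv (w : ℂ) : logDeriv Xf w = (2 * w - 1) * logDeriv Fs (w * (w - 1)) := by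
  have h1 : Xf = Fs ∘ fun w : ℂ => w * (w - 1) := funext Xf_Fs
  have h2 : HasDerivAt (fun w : ℂ => w * (w - 1)) (2 * w - 1) w := by
    have := (hasDerivAt_id w).mul ((hasDerivAt_id w).sub_const (1 : ℂ))
    have e : (1 : ℂ) * (id w - 1) + id w * 1 = 2 * w - 1 := by
      simp only [id]
      ring
    rw [e] at this
    exact this
  have h3 : HasDerivAt Xf (deriv Fs (w * (w - 1)) * (2 * w - 1)) w := by
    rw [h1]
    exact HasDerivAt.comp (h₂ := Fs) w (Fs_diff _).hasDerivAt h2
  rw [logDeriv_apply, logDeriv_apply, h3.deriv, Xf_Fs]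
  ring

/-- `(w - 1) ζ(w)` -/
noncomputable def hz (w : ℂ) : ℂ := Function.update (fun w => (w - 1) * riemannZeta w) 1 1 w

theorem hz_one : hz 1 = 1 := by simp [hz]

theorem hz_ne {w : ℂ} (h : w ≠ 1) : hz w = (w - 1) * riemannZeta w := by simp [hz, h]

theorem hz_deriv_one : HasDerivAt hz Real.eulerMascheroniConstant 1 := by
  rw [hasDerivAt_iff_tendsto_slope]
  have h := tendsto_riemannZeta_sub_one_div
  refine h.congr' ?_
  filter_upwards [self_mem_nhdsWithin] with w hw
  have hw1 : w ≠ 1 := hw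
  have hw2 : w - 1 ≠ 0 := sub_ne_zero.2 hw1
  rw [slope_def_module, hz_one, hz_ne hw1, smul_eq_mul]
  field_simp

theorem Xf_hz {w : ℂ} (h0 : 0 < w.re) : Xf w = 4 * w * hz w * Gammaℝ w := by
  have hG : Gammaℝ w ≠ 0 := Gammaℝ_ne_zero_of_re_pos h0
  have hw0 : w ≠ 0 := fun h => by rw [h] at h0; simp at h0
  by_cases h1 : w = 1
  · rw [h1, hz_one, Gammaℝ_one]
    unfold Xf
    rw [show (1 - 1 / 2 : ℂ) = 1 / 2 by norm_num, Zer.XX_half]
    norm_num
  rw [hz_ne h1]
  unfold Xf
  rw [Zer.XX_eq _ (by rwa [show (1 / 2 + (w - 1 / 2) : ℂ) = w by ring])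
    (by
      rw [show (1 - (1 / 2 + (w - 1 / 2)) : ℂ) = 1 - w by ring]
      exact sub_ne_zero.2 (Ne.symm h1)), show (1 / 2 + (w - 1 / 2) : ℂ) = w by ring,
    riemannZeta_def_of_ne_zero hw0]
  field_simp
  ring

theorem gammaR_deriv {w : ℂ} (h0 : 0 < w.re) :
    HasDerivAt Gammaℝ (Gammaℝ w * (-(Real.log Real.pi) / 2 + logDeriv Gamma (w / 2) / 2)) w := by
  have h1 : Gammaℝ = fun s : ℂ => (Real.pi : ℂ) ^ (-s / 2) * Gamma (s / 2) := funext fun s => Gammaℝ_def s
  have hre : 0 < (w / 2).re := by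
    have : (w / 2).re = w.re / 2 := by simp
    rw [this]
    positivity
  have hne : ∀ m : ℕ, w / 2 ≠ -m := by
    intro m h
    rw [h] at hre
    simp at hre
    have hm : (0 : ℝ) ≤ m := Nat.cast_nonneg m
    linarith
  have h2 : HasDerivAt (fun s : ℂ => Gamma (s / 2)) (deriv Gamma (w / 2) * (1 / 2)) w :=
    HasDerivAt.comp (h₂ := Gamma) w (differentiableAt_Gamma _ hne).hasDerivAt ((hasDerivAt_id w).div_const 2)
  have hpi : (Real.pi : ℂ) ≠ 0 := by exact_mod_cast Real.pi_ne_zero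
  have h3 : HasDerivAt (fun s : ℂ => (Real.pi : ℂ) ^ (-s / 2)) ((Real.pi : ℂ) ^ (-w / 2) * Complex.log Real.pi * (-1 / 2)) w :=
    (((hasDerivAt_id w).neg).div_const 2).const_cpow (Or.inl hpi)
  have h4 := h3.mul h2
  have hG : Gamma (w / 2) ≠ 0 := Gamma_ne_zero_of_re_pos hre
  have e : (Real.pi : ℂ) ^ (-w / 2) * Complex.log Real.pi * (-1 / 2) * Gamma (w / 2) +
      (Real.pi : ℂ) ^ (-w / 2) * (deriv Gamma (w / 2) * (1 / 2)) =
      Gammaℝ w * (-(Real.log Real.pi) / 2 + logDeriv Gamma (w / 2) / 2) := by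
    rw [logDeriv_apply, Complex.ofReal_log Real.pi_pos.le, Gammaℝ_def]
    field_simp
  rw [e] at h4
  rw [h1] at h4 ⊢
  exact h4

theorem logDeriv_gammaR {w : ℂ} (h0 : 0 < w.re) :
    logDeriv Gammaℝ w = -(Real.log Real.pi) / 2 + logDeriv Gamma (w / 2) / 2 := by
  have h1 := Gammaℝ_ne_zero_of_re_pos h0
  rw [logDeriv_apply, (gammaR_deriv h0).deriv]
  field_simp

/-- the logarithmic derivative of the completed function -/
theorem Xf_logDeriv_one : logDeriv Xf 1 = ((1 + Real.eulerMascheroniConstant / 2 - Real.log Real.pi / 2 - Real.log 2 : ℝ) : ℂ) := by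
  have hev : Xf =ᶠ[𝓝 1] fun w => 4 * w * hz w * Gammaℝ w := by
    have : {w : ℂ | 0 < w.re} ∈ 𝓝 (1 : ℂ) := (isOpen_lt continuous_const continuous_re).mem_nhds (by simp)
    filter_upwards [this] with w hw
    exact Xf_hz hw
  rw [(logDeriv_congr_nhds hev).self_of_nhds]
  have h1 : HasDerivAt (fun w : ℂ => 4 * w * hz w) (4 + 4 * Real.eulerMascheroniConstant) 1 := by
    have h2 := ((hasDerivAt_id (1 : ℂ)).const_mul 4).mul hz_deriv_one
    simp only [id, mul_one, hz_one] at h2
    exact h2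
  have h2 := gammaR_deriv (w := 1) (by simp)
  have h3 : logDeriv Gamma (1 / 2) = -2 * Complex.log 2 - Real.eulerMascheroniConstant := digamma_one_half
  rw [Gammaℝ_one, h3, one_mul] at h2
  have h4 := h1.mul h2
  have h5 : deriv (fun w : ℂ => 4 * w * hz w * Gammaℝ w) 1 = _ := h4.deriv
  rw [logDeriv_apply, h5]
  simp only [hz_one, Gammaℝ_one, mul_one]
  have : Complex.log 2 = ((Real.log 2 : ℝ) : ℂ) := by
    rw [Complex.ofReal_log (by norm_num)]
    norm_num
  rw [this]
  push_cast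
  ring

theorem Xf_logDeriv_eq {w : ℂ} (hw : 1 < w.re) : logDeriv Xf w =
    1 / w + 1 / (w - 1) + deriv riemannZeta w / riemannZeta w + (-(Real.log Real.pi) / 2 + logDeriv Gamma (w / 2) / 2) := by
  have h0 : 0 < w.re := by linarith
  have hw0 : w ≠ 0 := fun h => by rw [h] at h0; simp at h0
  have hw1 : w ≠ 1 := fun h => by rw [h] at hw; simp at hw
  have hw2 : w - 1 ≠ 0 := sub_ne_zero.2 hw1
  have hζ : riemannZeta w ≠ 0 := riemannZeta_ne_zero_of_one_lt_re hw
  have hev : Xf =ᶠ[𝓝 w] fun w => 4 * w * ((w - 1) * riemannZeta w) * Gammaℝ w := by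
    have : {w : ℂ | 1 < w.re} ∈ 𝓝 w := (isOpen_lt continuous_const continuous_re).mem_nhds hw
    filter_upwards [this] with z hz
    have hz' : 1 < z.re := hz
    rw [Xf_hz (by linarith), hz_ne (fun h => by rw [h] at hz'; simp at hz')]
  rw [(logDeriv_congr_nhds hev).self_of_nhds]
  have hG := Gammaℝ_ne_zero_of_re_pos h0
  have d1 : DifferentiableAt ℂ (fun w : ℂ => 4 * w) w := by fun_prop
  have d2 : DifferentiableAt ℂ (fun w : ℂ => w - 1) w := by fun_prop
  have d3 : DifferentiableAt ℂ riemannZeta w := differentiableAt_riemannZeta hw1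
  have d4 : DifferentiableAt ℂ Gammaℝ w := (gammaR_deriv h0).differentiableAt
  have n1 : (4 * w : ℂ) ≠ 0 := mul_ne_zero (by norm_num) hw0
  have e1 : logDeriv (fun w : ℂ => 4 * w * ((w - 1) * riemannZeta w) * Gammaℝ w) w =
      logDeriv (fun w : ℂ => 4 * w * ((w - 1) * riemannZeta w)) w + logDeriv Gammaℝ w :=
    logDeriv_mul (f := fun w : ℂ => 4 * w * ((w - 1) * riemannZeta w)) (g := Gammaℝ) w
      (mul_ne_zero n1 (mul_ne_zero hw2 hζ)) hG (d1.mul (d2.mul d3)) d4
  have e2 : logDeriv (fun w : ℂ => 4 * w * ((w - 1) * riemannZeta w)) w =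
      logDeriv (fun w : ℂ => 4 * w) w + logDeriv (fun w : ℂ => (w - 1) * riemannZeta w) w :=
    logDeriv_mul (f := fun w : ℂ => 4 * w) (g := fun w : ℂ => (w - 1) * riemannZeta w) w n1 (mul_ne_zero hw2 hζ) d1 (d2.mul d3)
  have e3 : logDeriv (fun w : ℂ => (w - 1) * riemannZeta w) w = logDeriv (fun w : ℂ => w - 1) w + logDeriv riemannZeta w :=
    logDeriv_mul (f := fun w : ℂ => w - 1) (g := riemannZeta) w hw2 hζ d2 d3
  have e4 : logDeriv (fun w : ℂ => 4 * w) w = 1 / w := by
    rw [logDeriv_apply]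
    have : deriv (fun w : ℂ => 4 * w) w = 4 := by
      have := ((hasDerivAt_id w).const_mul (4 : ℂ)).deriv
      simp only [mul_one] at this
      exact this
    rw [this]
    field_simp
  have e5 : logDeriv (fun w : ℂ => w - 1) w = 1 / (w - 1) := by
    rw [logDeriv_apply]
    have : deriv (fun w : ℂ => w - 1) w = 1 := ((hasDerivAt_id w).sub_const (1 : ℂ)).deriv
    rw [this]
  rw [e1, e2, e3, e4, e5, logDeriv_gammaR h0, logDeriv_apply]
  ring

/-- the constant `f'/f(0)` -/
theorem kappa : logDeriv Fs 0 = ((1 + Real.eulerMascheroniConstant / 2 - Real.log Real.pi / 2 - Real.log 2 : ℝ) : ℂ) := by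
  rw [← Xf_logDeriv_one, Xf_logDeriv]
  norm_num

/-- **The identity of the Laplace transforms.** -/
theorem lap_identity {w : ℂ} (hw : 1 < w.re) :
    HasSum (fun k : ℕ => 1 / ((2 * (k : ℂ) + 2) * (2 * k + 3)) * (1 / (w + (2 * k + 2))))
      ((2 * w - 1) / (w * (w - 1)) * (logDeriv Fs 0 - logDeriv Fs (w * (w - 1))) +
        deriv riemannZeta w / riemannZeta w / (w * (w - 1)) + 1 / (w - 1) ^ 2 -
        (1 + Real.eulerMascheroniConstant) / (w - 1) + Real.log (2 * Real.pi) / w) := by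
  have h0 : 0 < w.re := by linarith
  have hw0 : w ≠ 0 := fun h => by rw [h] at h0; simp at h0
  have hw1 : w ≠ 1 := fun h => by rw [h] at hw; simp at hw
  have hw2 : w - 1 ≠ 0 := sub_ne_zero.2 hw1
  have h1 := sum_log2.mul_left (1 / (w - 1))
  have h2 := (half_psi h0).mul_left (1 / (w * (w - 1)))
  have h3 := h1.sub h2
  rw [psi_shift h0] at h3
  have e : 1 / (w - 1) * ((1 - Real.log 2 : ℝ) : ℂ) - 1 / (w * (w - 1)) * ((logDeriv Gamma (w / 2) + 2 / w +
      Real.eulerMascheroniConstant) / 2) = (2 * w - 1) / (w * (w - 1)) * (logDeriv Fs 0 - logDeriv Fs (w * (w - 1))) +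
        deriv riemannZeta w / riemannZeta w / (w * (w - 1)) + 1 / (w - 1) ^ 2 -
        (1 + Real.eulerMascheroniConstant) / (w - 1) + Real.log (2 * Real.pi) / w := by
    have h4 := Xf_logDeriv_eq hw
    rw [Xf_logDeriv] at h4
    have h5 : (2 * w - 1) / (w * (w - 1)) * (logDeriv Fs 0 - logDeriv Fs (w * (w - 1))) =
        ((2 * w - 1) * logDeriv Fs 0 - (2 * w - 1) * logDeriv Fs (w * (w - 1))) / (w * (w - 1)) := by ring
    rw [h5, h4, kappa, Real.log_mul two_ne_zero Real.pi_ne_zero]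
    set ψ := logDeriv Gamma (w / 2)
    set q := deriv riemannZeta w / riemannZeta w
    push_cast
    field_simp
    ring
  rw [e] at h3
  refine hs_congr h3 fun k => ?_
  have hk : (0 : ℝ) ≤ k := Nat.cast_nonneg k
  have n1 : (2 * (k : ℂ) + 2) ≠ 0 := by
    intro h
    have := congrArg Complex.re h
    simp at this
    linarith
  have n3 : (2 * (k : ℂ) + 3) ≠ 0 := by
    intro h
    have := congrArg Complex.re h
    simp at this
    linarith
  have n2 : (2 * (k : ℂ) + 2 + w) ≠ 0 := by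
    intro h
    have := congrArg Complex.re h
    simp at this
    linarith
  rw [show w + (2 * (k : ℂ) + 2) = 2 * (k : ℂ) + 2 + w by ring]
  rw [show 2 * (k : ℂ) + 3 = (2 * (k : ℂ) + 2) + 1 by ring] at n3 ⊢
  generalize 2 * (k : ℂ) + 2 = K at n1 n2 n3 ⊢
  field_simp
  ring

end Run7.h278.LM
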