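import Pool.Agent.Run7.h278.LM.Lap

set_option autoImplicit false

/-!
# The explicit formula
-/

namespace Run7.h278.LM

open Complex Filter Topology MeasureTheory Set Pool.Agent.H24R2.JP Run7.h278.WL Run7.h278.LI

/-- the transform of the sum over the prime powers -/
theorem SS_lap {p : ℂ} (hp : 1 < p.re) : IntegrableOn (fun u : ℝ => (SS u : ℂ) * cexp (-p * u)) (Ioi 0) ∧
    ∫ u : ℝ in Ioi 0, (SS u : ℂ) * cexp (-p * u) = -(deriv riemannZeta (p + 1) / riemannZeta (p + 1) / (p * (p + 1))) := by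
  have hp0 : 0 < p.re := by linarith
  constructor
  · have h1 : IntegrableOn (fun u : ℝ => Real.exp (-(p.re - 1) * u)) (Ioi 0) :=
      integrableOn_exp_mul_Ioi (a := -(p.re - 1)) (by linarith) 0
    have hc : Continuous fun u : ℝ => (SS u : ℂ) * cexp (-p * u) :=
      (Complex.continuous_ofReal.comp SS_cont).mul (by fun_prop)
    refine Integrable.mono' h1 hc.aestronglyMeasurable ?_
    refine (ae_restrict_mem measurableSet_Ioi).mono fun u hu => ?_
    rw [norm_mul, norm_exp_neg, Complex.norm_real, Real.norm_eq_abs, abs_of_nonneg (SS_nonneg u)]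
    have h2 := SS_le u
    have h3 : Real.exp (-(p.re - 1) * u) = Real.exp u * Real.exp (-p.re * u) := by
      rw [← Real.exp_add]
      congr 1
      ring
    rw [h3]
    gcongr
  · set F : ℕ → ℝ → ℂ := fun n u => ((st n u : ℝ) : ℂ) * cexp (-p * u) with hF
    have hFe : ∀ n u, F n u = (ArithmeticFunction.vonMangoldt n : ℂ) *
        (((max (1 / (n : ℝ) - Real.exp (-u)) 0 : ℝ) : ℂ) * cexp (-p * u)) := by
      intro n u
      rw [hF]
      simp only
      unfold st
      push_cast
      ring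
    have hs1 : 1 < (p + 1).re := by simp; linarith
    have hint : ∀ n, Integrable (F n) (volume.restrict (Ioi 0)) := by
      intro n
      rcases Nat.eq_zero_or_pos n with h | h
      · have : F n = fun _ => 0 := by
          funext u
          rw [hFe, h]
          simp
        rw [this]
        exact integrable_zero _ _ _
      · have := ((st_lap h hp0).1).const_mul (ArithmeticFunction.vonMangoldt n : ℂ)
        refine this.congr (Eventually.of_forall fun u => ?_)
        exact (hFe n u).symm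
    have hval : ∀ n, ∫ u : ℝ in Ioi 0, F n u = 1 / (p * (p + 1)) *
        LSeries.term (fun n => (ArithmeticFunction.vonMangoldt n : ℂ)) (p + 1) n := by
      intro n
      rw [LSeries.term_def]
      split_ifs with h
      · have : F n = fun _ => 0 := by
          funext u
          rw [hFe, h]
          simp
        rw [this]
        simp
      · simp_rw [hFe]
        rw [integral_const_mul, (st_lap (Nat.pos_of_ne_zero h) hp0).2]
        ring
    have hnorm : ∀ n, ∫ u : ℝ in Ioi 0, ‖F n u‖ = 1 / (p.re * (p.re + 1)) *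
        ‖LSeries.term (fun n => (ArithmeticFunction.vonMangoldt n : ℂ)) (p + 1) n‖ := by
      intro n
      rw [LSeries.norm_term_eq]
      split_ifs with h
      · have : F n = fun _ => 0 := by
          funext u
          rw [hFe, h]
          simp
        rw [this]
        simp
      · have hpr : 0 < ((p.re : ℝ) : ℂ).re := by simpa using hp0
        have h1 := (st_lap (Nat.pos_of_ne_zero h) hpr).2
        have h2 : ∀ u : ℝ, ‖F n u‖ = ArithmeticFunction.vonMangoldt n *
            (max (1 / (n : ℝ) - Real.exp (-u)) 0 * Real.exp (-p.re * u)) := by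
          intro u
          rw [hFe, norm_mul, norm_mul, norm_exp_neg, Complex.norm_real, Complex.norm_real, Real.norm_eq_abs, Real.norm_eq_abs,
            abs_of_nonneg ArithmeticFunction.vonMangoldt_nonneg, abs_of_nonneg (le_max_right _ _)]
        simp_rw [h2]
        rw [integral_const_mul]
        have h3 : ∫ u : ℝ in Ioi 0, max (1 / (n : ℝ) - Real.exp (-u)) 0 * Real.exp (-p.re * u) =
            1 / (p.re * (p.re + 1)) * (1 / (n : ℝ) ^ (p.re + 1)) := by
          apply Complex.ofReal_injective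
          rw [← integral_complex_ofReal]
          have h4 : ∀ u : ℝ, ((max (1 / (n : ℝ) - Real.exp (-u)) 0 * Real.exp (-p.re * u) : ℝ) : ℂ) =
              ((max (1 / (n : ℝ) - Real.exp (-u)) 0 : ℝ) : ℂ) * cexp (-(p.re : ℂ) * u) := by
            intro u
            push_cast
            rfl
          simp_rw [h4]
          rw [h1]
          push_cast
          congr 2
          rw [Complex.ofReal_cpow (Nat.cast_nonneg n)]
          push_cast
          rfl
        rw [h3, Complex.norm_real, Real.norm_eq_abs, abs_of_nonneg ArithmeticFunction.vonMangoldt_nonneg]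
        simp only [Complex.add_re, Complex.one_re]
        ring
    have hsum : Summable fun n => ∫ u : ℝ in Ioi 0, ‖F n u‖ := by
      simp_rw [hnorm]
      exact (ArithmeticFunction.LSeriesSummable_vonMangoldt hs1).norm.mul_left _
    have h1 := hasSum_integral_of_summable_integral_norm hint hsum
    have h2 : ∀ u : ℝ, ∑' n, F n u = (SS u : ℂ) * cexp (-p * u) := by
      intro u
      have := (Complex.hasSum_ofReal.2 (SS_hasSum u)).mul_right (cexp (-p * u))
      exact this.tsum_eq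
    simp_rw [h2, hval] at h1
    have h3 := (ArithmeticFunction.LSeriesSummable_vonMangoldt hs1).hasSum.mul_left (1 / (p * (p + 1)))
    have h4 := h1.unique h3
    rw [h4]
    have h5 := ArithmeticFunction.LSeries_vonMangoldt_eq_deriv_riemannZeta_div hs1
    unfold LSeries at h5
    rw [h5]
    ring

/-- the function of the theorem -/
noncomputable def aa (u : ℝ) : ℝ :=
  Real.exp (u / 2) * (∑ n ∈ Finset.Icc 1 ⌊Real.exp u⌋₊, ArithmeticFunction.vonMangoldt n * (1 / (n : ℝ) - Real.exp (-u)) -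
    u + 1 + Real.eulerMascheroniConstant)

theorem aa_eq (u : ℝ) : aa u = Real.exp (u / 2) * (SS u - u + 1 + Real.eulerMascheroniConstant) := rfl

theorem aa_cont : Continuous aa := by
  have : aa = fun u => Real.exp (u / 2) * (SS u - u + 1 + Real.eulerMascheroniConstant) := rfl
  rw [this]
  have := SS_cont
  fun_prop

/-- the transform of the function -/
theorem aa_lap {w : ℂ} (hw : 2 < w.re) : IntegrableOn (fun u : ℝ => (aa u : ℂ) * cexp (-(w - 1 / 2) * u)) (Ioi 0) ∧
    ∫ u : ℝ in Ioi 0, (aa u : ℂ) * cexp (-(w - 1 / 2) * u) =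
      -(deriv riemannZeta w / riemannZeta w / (w * (w - 1))) - 1 / (w - 1) ^ 2 +
      (1 + Real.eulerMascheroniConstant) / (w - 1) := by
  have hp : 1 < (w - 1).re := by simp; linarith
  have hp0 : 0 < (w - 1).re := by linarith
  have e : ∀ u : ℝ, (aa u : ℂ) * cexp (-(w - 1 / 2) * u) = (SS u : ℂ) * cexp (-(w - 1) * u) -
      (u : ℂ) * cexp (-(w - 1) * u) + (1 + Real.eulerMascheroniConstant) * cexp (-(w - 1) * u) := by
    intro u
    rw [aa_eq]
    push_cast
    have h1 : cexp ((u : ℂ) / 2) * cexp (-(w - 1 / 2) * u) = cexp (-(w - 1) * u) := by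
      rw [← Complex.exp_add]
      congr 1
      ring
    rw [← h1]
    ring
  have i1 := (SS_lap hp).1
  have i2 := (lap_u hp0).1
  have i3 : IntegrableOn (fun u : ℝ => (1 + Real.eulerMascheroniConstant : ℂ) * cexp (-(w - 1) * u)) (Ioi 0) :=
    (lap_exp_int hp0 0).const_mul _
  simp_rw [e]
  have i12 : IntegrableOn (fun u : ℝ => (SS u : ℂ) * cexp (-(w - 1) * u) - (u : ℂ) * cexp (-(w - 1) * u)) (Ioi 0) := i1.sub i2
  refine ⟨i12.add i3, ?_⟩
  rw [integral_add i12 i3, integral_sub i1 i2, integral_const_mul, (SS_lap hp).2, (lap_u hp0).2, lap_exp0 hp0,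
    sub_add_cancel]
  ring

/-- termwise: integrability and continuity -/
theorem lap_sum_int {ι : Type*} {c a : ι → ℂ} {σ : ℝ} (hσ : 0 < σ) (ha : ∀ i, σ ≤ (a i).re)
    (hc : Summable fun i => ‖c i‖) :
    ContinuousOn (fun u : ℝ => ∑' i, c i * cexp (-a i * u)) (Ici 0) ∧
    IntegrableOn (fun u : ℝ => ∑' i, c i * cexp (-a i * u)) (Ioi 0) := by
  have hb : ∀ i, ∀ u ∈ Ici (0 : ℝ), ‖c i * cexp (-a i * u)‖ ≤ ‖c i‖ := by
    intro i u hu
    have hu' : (0 : ℝ) ≤ u := hu
    rw [norm_mul, norm_exp_neg]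
    have h1 : Real.exp (-(a i).re * u) ≤ 1 := by
      rw [Real.exp_le_one_iff]
      nlinarith [ha i]
    exact mul_le_of_le_one_right (norm_nonneg _) h1
  have hcont : ContinuousOn (fun u : ℝ => ∑' i, c i * cexp (-a i * u)) (Ici 0) :=
    continuousOn_tsum (fun i => by fun_prop) hc hb
  refine ⟨hcont, ?_⟩
  have h1 : IntegrableOn (fun u : ℝ => (∑' i, ‖c i‖) * Real.exp (-σ * u)) (Ioi 0) :=
    (integrableOn_exp_mul_Ioi (a := -σ) (by linarith) 0).const_mul _
  refine Integrable.mono' h1 ((hcont.mono Ioi_subset_Ici_self).aestronglyMeasurable measurableSet_Ioi) ?_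
  refine (ae_restrict_mem measurableSet_Ioi).mono fun u hu => ?_
  have hu' : (0 : ℝ) < u := hu
  have h2 : ∀ i, ‖c i * cexp (-a i * u)‖ ≤ ‖c i‖ * Real.exp (-σ * u) := by
    intro i
    rw [norm_mul, norm_exp_neg]
    have : Real.exp (-(a i).re * u) ≤ Real.exp (-σ * u) := by
      rw [Real.exp_le_exp]
      nlinarith [ha i]
    gcongr
  have h3 : Summable fun i => ‖c i * cexp (-a i * u)‖ :=
    Summable.of_nonneg_of_le (fun i => norm_nonneg _) h2 (hc.mul_right _)
  calc ‖∑' i, c i * cexp (-a i * u)‖ ≤ ∑' i, ‖c i * cexp (-a i * u)‖ := norm_tsum_le_tsum_norm h3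
    _ ≤ ∑' i, ‖c i‖ * Real.exp (-σ * u) := h3.tsum_le_tsum h2 (hc.mul_right _)
    _ = _ := tsum_mul_right

/-! ### The zeros -/

/-- the weight of an ordinate -/
noncomputable def WW (t : TI) : ℝ := (WL.mt (t : ℝ) : ℝ) / (1 / 4 + (t : ℝ) ^ 2)

theorem mt_pos (t : TI) : 0 < WL.mt (t : ℝ) := by
  unfold WL.mt
  rw [mult_eq t.2.1.ne']
  exact Nat.pos_of_ne_zero ((mu_pos Fs_diff Fs_zero_ne _).2 ((Z_iff _).1 t.2.2))

theorem WW_pos (t : TI) : 0 < WW t := by
  unfold WW
  have h1 : (0 : ℝ) < WL.mt (t : ℝ) := by exact_mod_cast mt_pos t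
  positivity

theorem WW_eq (t : TI) : WW t = (mu Fs (vt t) : ℝ) * ‖1 / vt (t : ℝ)‖ := by
  unfold WW WL.mt
  rw [mult_eq t.2.1.ne', norm_vt]
  ring

theorem WW_summable : Summable WW := by
  obtain ⟨Z, hZ⟩ := exists_Zs
  have h1 := summable_inv hZ
  have hinj : Function.Injective (fun t : TI => vt (t : ℝ)) := by
    intro t t' h
    have h1 : vt (t : ℝ) = vt (t' : ℝ) := h
    unfold vt at h1
    have h2 : -(1 / 4 + (t : ℝ) ^ 2) = -(1 / 4 + (t' : ℝ) ^ 2) := by exact_mod_cast h1
    have h3 : (t : ℝ) ^ 2 = (t' : ℝ) ^ 2 := by linarith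
    exact Subtype.ext ((sq_eq_sq₀ t.2.1.le t'.2.1.le).1 h3)
  have h2 := h1.comp_injective hinj
  refine h2.congr fun t => ?_
  rw [WW_eq]
  rfl

instance : Countable TI := by
  have h := WW_summable.countable_support
  have h1 : Function.support WW = univ := by
    ext t
    simp [(WW_pos t).ne']
  rw [h1] at h
  exact countable_univ_iff.1 h

/-- the sum over the zeros -/
noncomputable def FFz (u : ℝ) : ℝ := ∑' t : TI, 2 * WW t * Real.cos (t * u)

/-- the remainder -/
noncomputable def RR (u : ℝ) : ℝ := ∑' k : ℕ, 1 / ((2 * (k : ℝ) + 2) * (2 * k + 3)) * Real.exp (-(2 * k + 5 / 2) * u)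

theorem log_sub (hRH : RiemannHypothesis) {w : ℂ} (hw : 1 < w.re) :
    HasSum (fun t : TI => (WW t : ℂ) * (1 / (w - 1 / 2 - I * t)) + (WW t : ℂ) * (1 / (w - 1 / 2 + I * t)))
      ((2 * w - 1) / (w * (w - 1)) * (logDeriv Fs 0 - logDeriv Fs (w * (w - 1)))) := by
  obtain ⟨Z, hZ⟩ := exists_Zs
  obtain ⟨e, he⟩ := equivT hRH
  have hre : 0 < w.re := by linarith
  have hw0 : w ≠ 0 := fun h => by rw [h] at hre; simp at hre
  have hw1 : w ≠ 1 := fun h => by rw [h] at hw; simp at hw
  have hw2 : w - 1 ≠ 0 := sub_ne_zero.2 hw1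
  have hx : Fs (w * (w - 1)) ≠ 0 := by
    rw [← Xf_Fs, Xf_hz hre, hz_ne hw1]
    exact mul_ne_zero (mul_ne_zero (mul_ne_zero (by norm_num) hw0)
      (mul_ne_zero hw2 (riemannZeta_ne_zero_of_one_lt_re hw))) (Gammaℝ_ne_zero_of_re_pos hre)
  have h1 := hasSum_logDeriv Fs_diff Fs_zero_ne hZ (fun u hu => Fs_par' hu) hx
  have h0 := hasSum_logDeriv Fs_diff Fs_zero_ne hZ (fun u hu => Fs_par' hu) Fs_zero_ne
  have h2 := (h0.sub h1).mul_left ((2 * w - 1) / (w * (w - 1)))
  have h3 : HasSum (fun v : ZI => (2 * w - 1) / (w * (w - 1)) * ((mu Fs (v : ℂ) : ℂ) * (1 / (0 - (v : ℂ))) -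
      (mu Fs (v : ℂ) : ℂ) * (1 / (w * (w - 1) - (v : ℂ))))) ((2 * w - 1) / (w * (w - 1)) * (logDeriv Fs 0 - logDeriv Fs (w * (w - 1)))) := by
    refine (hasSum_subtype_iff_of_support_subset (s := {v | Fs v = 0}) ?_).2 h2
    intro v hv
    by_contra hcon
    apply hv
    have : mu Fs v = 0 := by
      by_contra h
      exact hcon ((mu_pos Fs_diff Fs_zero_ne v).1 h)
    simp [this]
  rw [← e.hasSum_iff] at h3
  refine hs_congr h3 fun t => ?_
  simp only [Function.comp_apply]
  rw [he t]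
  have hd : ∀ ε : ℂ, ε = I ∨ ε = -I → w - 1 / 2 + ε * t ≠ 0 := by
    intro ε hε h
    have := congrArg Complex.re h
    rcases hε with rfl | rfl <;> simp at this <;> linarith
  have n1 := hd (-I) (Or.inr rfl)
  have n2 := hd I (Or.inl rfl)
  have n3 : (1 / 4 + (t : ℂ) ^ 2) ≠ 0 := by
    have h5 : ((1 / 4 + (t : ℝ) ^ 2 : ℝ) : ℂ) ≠ 0 := Complex.ofReal_ne_zero.2 (by positivity)
    push_cast at h5
    exact h5
  have hW : (WW t : ℂ) = (mu Fs (vt t) : ℂ) / (1 / 4 + (t : ℂ) ^ 2) := by
    unfold WW WL.mt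
    rw [mult_eq t.2.1.ne']
    push_cast
    ring
  have hv : vt (t : ℝ) = -(1 / 4 + (t : ℂ) ^ 2) := by
    unfold vt
    push_cast
    ring
  rw [hW, hv]
  have n4 : w * (w - 1) - -(1 / 4 + (t : ℂ) ^ 2) = (w - 1 / 2 - I * t) * (w - 1 / 2 + I * t) := by
    have := Complex.I_sq
    linear_combination (t : ℂ) ^ 2 * this
  rw [show w - 1 / 2 + -I * (t : ℂ) = w - 1 / 2 - I * t by ring] at n1
  have n5 : w * (w - 1) = (w - 1 / 2 - I * t) * (w - 1 / 2 + I * t) - (1 / 4 + (t : ℂ) ^ 2) := by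
    rw [← n4]; ring
  have n6 : w * (w - 1) ≠ 0 := mul_ne_zero hw0 hw2
  have hAB : 2 * w - 1 = (w - 1 / 2 - I * t) + (w - 1 / 2 + I * t) := by ring
  rw [n4, hAB]
  rw [n5] at n6 ⊢
  generalize (mu Fs (-(1 / 4 + (t : ℂ) ^ 2)) : ℂ) = m
  generalize (w - 1 / 2 - I * (t : ℂ)) = A at *
  generalize (w - 1 / 2 + I * (t : ℂ)) = B at *
  generalize (1 / 4 + (t : ℂ) ^ 2) = C at *
  rw [zero_sub, neg_neg]
  field_simp
  ring

end Run7.h278.LM
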