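import Pool.Agent.Run7.h278.LM.Expl

set_option autoImplicit false

/-!
# The explicit formula, second part
-/

namespace Run7.h278.LM

open Complex Filter Topology MeasureTheory Set Pool.Agent.H24R2.JP Run7.h278.WL Run7.h278.LI

theorem ck_summable : Summable fun k : ℕ => 1 / ((2 * (k : ℝ) + 2) * (2 * k + 3)) := by
  have h := sum_log2.summable
  have h1 : Summable fun k : ℕ => ((1 / ((2 * (k : ℝ) + 2) * (2 * k + 3)) : ℝ) : ℂ) := by
    refine h.congr fun k => ?_
    push_cast
    rfl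
  exact Complex.summable_ofReal.1 h1

theorem RR_term (w : ℂ) (u : ℝ) : (RR u : ℂ) * cexp (-(w - 1 / 2) * u) =
    ∑' k : ℕ, ((1 / ((2 * (k : ℝ) + 2) * (2 * k + 3)) : ℝ) : ℂ) * cexp (-(w + (2 * k + 2)) * u) := by
  unfold RR
  rw [Complex.ofReal_tsum, ← tsum_mul_right]
  refine tsum_congr fun k => ?_
  have h1 : cexp (-(w + (2 * k + 2)) * u) = cexp (-(2 * k + 5 / 2) * u) * cexp (-(w - 1 / 2) * u) := by
    rw [← Complex.exp_add]
    congr 1
    ring
  rw [h1]
  push_cast
  ring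

theorem FF_term (w : ℂ) (u : ℝ) : (FFz u : ℂ) * cexp (-(w - 1 / 2) * u) =
    ∑' t : TI, (WW t : ℂ) * cexp (-(w - 1 / 2 - I * t) * u) + ∑' t : TI, (WW t : ℂ) * cexp (-(w - 1 / 2 + I * t) * u) := by
  have hs : ∀ ε : ℂ, ε = I ∨ ε = -I → Summable fun t : TI => (WW t : ℂ) * cexp (ε * t * u) := by
    intro ε hε
    refine Summable.of_norm_bounded WW_summable fun t => ?_
    have h1 : ‖cexp (ε * t * u)‖ = 1 := by
      rcases hε with rfl | rfl <;> (rw [Complex.norm_exp]; simp)
    rw [norm_mul, h1, mul_one, Complex.norm_real, Real.norm_eq_abs, abs_of_pos (WW_pos t)]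
  have h1 : (FFz u : ℂ) = ∑' t : TI, (WW t : ℂ) * cexp (I * t * u) + ∑' t : TI, (WW t : ℂ) * cexp (-I * t * u) := by
    unfold FFz
    rw [Complex.ofReal_tsum, ← (hs I (Or.inl rfl)).tsum_add (hs (-I) (Or.inr rfl))]
    refine tsum_congr fun t => ?_
    push_cast
    rw [Complex.cos, show (t : ℂ) * u * I = I * t * u by ring, show -((t : ℂ) * u) * I = -I * t * u by ring]
    ring
  rw [h1, add_mul, ← tsum_mul_right, ← tsum_mul_right]
  congr 1
  · refine tsum_congr fun t => ?_
    rw [mul_assoc, ← Complex.exp_add]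
    congr 2
    ring
  · refine tsum_congr fun t => ?_
    rw [mul_assoc, ← Complex.exp_add]
    congr 2
    ring

theorem RR_norm_c : Summable fun k : ℕ => ‖((1 / ((2 * (k : ℝ) + 2) * (2 * k + 3)) : ℝ) : ℂ)‖ := by
  refine ck_summable.congr fun k => ?_
  rw [Complex.norm_real, Real.norm_eq_abs, abs_of_nonneg (by positivity)]

theorem WW_norm_c : Summable fun t : TI => ‖(WW t : ℂ)‖ := by
  refine WW_summable.congr fun t => ?_
  rw [Complex.norm_real, Real.norm_eq_abs, abs_of_pos (WW_pos t)]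

/-- the difference -/
noncomputable def DD (u : ℝ) : ℝ := aa u + RR u - Real.log (2 * Real.pi) * Real.exp (-u / 2) - FFz u

theorem DD_split (w : ℂ) (u : ℝ) : (DD u : ℂ) * cexp (-(w - 1 / 2) * u) =
    (aa u : ℂ) * cexp (-(w - 1 / 2) * u) +
    (∑' k : ℕ, ((1 / ((2 * (k : ℝ) + 2) * (2 * k + 3)) : ℝ) : ℂ) * cexp (-(w + (2 * k + 2)) * u)) -
    Real.log (2 * Real.pi) * cexp (-w * u) -
    ((∑' t : TI, (WW t : ℂ) * cexp (-(w - 1 / 2 - I * t) * u)) + ∑' t : TI, (WW t : ℂ) * cexp (-(w - 1 / 2 + I * t) * u)) := by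
  rw [← RR_term, ← FF_term]
  unfold DD
  have h1 : cexp (-w * u) = cexp (-u / 2) * cexp (-(w - 1 / 2) * u) := by
    rw [← Complex.exp_add]
    congr 1
    ring
  rw [h1]
  push_cast
  ring

theorem DD_lap (hRH : RiemannHypothesis) {w : ℂ} (hw : 2 < w.re) :
    IntegrableOn (fun u : ℝ => (DD u : ℂ) * cexp (-(w - 1 / 2) * u)) (Ioi 0) ∧
    ∫ u : ℝ in Ioi 0, (DD u : ℂ) * cexp (-(w - 1 / 2) * u) = 0 := by
  simp_rw [DD_split w]
  have a1 : ∀ k : ℕ, (1 : ℝ) ≤ (w + (2 * (k : ℂ) + 2)).re := by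
    intro k
    have hk : (0 : ℝ) ≤ k := Nat.cast_nonneg k
    simp
    linarith
  have a2 : ∀ t : TI, (1 : ℝ) ≤ (w - 1 / 2 - I * t).re := by
    intro t
    simp
    linarith
  have a3 : ∀ t : TI, (1 : ℝ) ≤ (w - 1 / 2 + I * t).re := by
    intro t
    simp
    linarith
  have i1 := (aa_lap hw).1
  have i2 := (lap_sum_int one_pos a1 RR_norm_c).2
  have i3 : IntegrableOn (fun u : ℝ => (Real.log (2 * Real.pi) : ℂ) * cexp (-w * u)) (Ioi 0) :=
    (lap_exp_int (a := w) (by linarith) 0).const_mul _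
  have i4 := (lap_sum_int one_pos a2 WW_norm_c).2
  have i5 := (lap_sum_int one_pos a3 WW_norm_c).2
  have i12 : IntegrableOn (fun u : ℝ => (aa u : ℂ) * cexp (-(w - 1 / 2) * u) +
    (∑' k : ℕ, ((1 / ((2 * (k : ℝ) + 2) * (2 * k + 3)) : ℝ) : ℂ) * cexp (-(w + (2 * k + 2)) * u))) (Ioi 0) := i1.add i2
  have i123 : IntegrableOn (fun u : ℝ => (aa u : ℂ) * cexp (-(w - 1 / 2) * u) +
    (∑' k : ℕ, ((1 / ((2 * (k : ℝ) + 2) * (2 * k + 3)) : ℝ) : ℂ) * cexp (-(w + (2 * k + 2)) * u)) -
    Real.log (2 * Real.pi) * cexp (-w * u)) (Ioi 0) := i12.sub i3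
  have i45 : IntegrableOn (fun u : ℝ => (∑' t : TI, (WW t : ℂ) * cexp (-(w - 1 / 2 - I * t) * u)) +
    ∑' t : TI, (WW t : ℂ) * cexp (-(w - 1 / 2 + I * t) * u)) (Ioi 0) := i4.add i5
  refine ⟨i123.sub i45, ?_⟩
  rw [integral_sub i123 i45, integral_sub i12 i3, integral_add i1 i2, integral_add i4 i5, integral_const_mul,
    (aa_lap hw).2, lap_exp0 (by linarith)]
  have s2 := lap_sum one_pos a1 RR_norm_c
  have s4 := lap_sum one_pos a2 WW_norm_c
  have s5 := lap_sum one_pos a3 WW_norm_c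
  have hw1 : 1 < w.re := by linarith
  have e1 := log_sub hRH hw1
  have e2 := (s4.add s5).unique e1
  have e3 := lap_identity hw1
  have e4 : HasSum (fun k : ℕ => ((1 / ((2 * (k : ℝ) + 2) * (2 * k + 3)) : ℝ) : ℂ) * (1 / (w + (2 * (k : ℂ) + 2)))) _ :=
    hs_congr e3 fun k => by push_cast; rfl
  have e5 := s2.unique e4
  rw [e2, e5]
  ring

theorem FFz_cont : Continuous FFz := by
  unfold FFz
  refine continuous_tsum (fun t => by fun_prop) (WW_summable.mul_left 2) fun t u => ?_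
  rw [norm_mul, Real.norm_eq_abs, Real.norm_eq_abs, abs_of_pos (by have := WW_pos t; positivity)]
  have := WW_pos t
  exact mul_le_of_le_one_right (by positivity) (Real.abs_cos_le_one _)

theorem RR_cont : ContinuousOn RR (Ici 0) := by
  unfold RR
  refine continuousOn_tsum (fun k => by fun_prop) ck_summable fun k u hu => ?_
  have hu' : (0 : ℝ) ≤ u := hu
  have hk : (0 : ℝ) ≤ k := Nat.cast_nonneg k
  rw [norm_mul, Real.norm_eq_abs, Real.norm_eq_abs, abs_of_nonneg (by positivity), abs_of_pos (Real.exp_pos _)]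
  refine mul_le_of_le_one_right (by positivity) ?_
  rw [Real.exp_le_one_iff]
  have : 0 ≤ (2 * (k : ℝ) + 5 / 2) * u := by positivity
  linarith

/-- **The explicit formula** on the Riemann hypothesis -/
theorem explicit (hRH : RiemannHypothesis) {u : ℝ} (hu : 0 < u) : DD u = 0 := by
  set G : ℝ → ℂ := (Ioi (0 : ℝ)).indicator fun u => (DD u : ℂ) * cexp (-2 * u) with hG
  have hint : Integrable G := by
    have h := (DD_lap hRH (w := 5 / 2) (by norm_num)).1
    rw [show ((5 / 2 : ℂ) - 1 / 2) = 2 by norm_num] at h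
    exact (integrable_indicator_iff measurableSet_Ioi).2 h
  have hF : FourierTransform.fourier G = fun _ => 0 := by
    funext ξ
    rw [Real.fourier_real_eq_integral_exp_smul]
    have h1 : ∀ v : ℝ, cexp (((-2 * Real.pi * v * ξ : ℝ) : ℂ) * I) • G v =
        (Ioi (0 : ℝ)).indicator (fun u : ℝ => (DD u : ℂ) * cexp (-((5 / 2 + 2 * Real.pi * ξ * I) - 1 / 2) * u)) v := by
      intro v
      rw [hG]
      by_cases hv : v ∈ Ioi (0 : ℝ)
      · rw [indicator_of_mem hv, indicator_of_mem hv, smul_eq_mul]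
        have : cexp (-((5 / 2 + 2 * Real.pi * ξ * I) - 1 / 2) * v) = cexp (((-2 * Real.pi * v * ξ : ℝ) : ℂ) * I) * cexp (-2 * v) := by
          rw [← Complex.exp_add]
          congr 1
          push_cast
          ring
        rw [this]
        ring
      · rw [indicator_of_notMem hv, indicator_of_notMem hv, smul_zero]
    simp_rw [h1]
    rw [integral_indicator measurableSet_Ioi]
    exact (DD_lap hRH (w := 5 / 2 + 2 * Real.pi * ξ * I) (by simp; norm_num)).2
  have hc : ContinuousAt G u := by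
    have h1 : ContinuousAt (fun u : ℝ => (DD u : ℂ) * cexp (-2 * u)) u := by
      have h2 : ContinuousAt DD u := by
        have h3 : ContinuousAt RR u := RR_cont.continuousAt (Ici_mem_nhds hu)
        have h4 := aa_cont.continuousAt (x := u)
        have h5 := FFz_cont.continuousAt (x := u)
        unfold DD
        fun_prop
      have h6 : ContinuousAt (fun u : ℝ => (DD u : ℂ)) u := Complex.continuous_ofReal.continuousAt.comp h2
      have h7 : ContinuousAt (fun u : ℝ => cexp (-2 * u)) u := by fun_prop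
      exact h6.mul h7
    refine h1.congr ?_
    filter_upwards [Ioi_mem_nhds hu] with v hv
    rw [hG, indicator_of_mem hv]
  have h2 := hint.fourierInv_fourier_eq (by rw [hF]; exact integrable_zero _ _ _) hc
  rw [hF] at h2
  have h3 : G u = 0 := by
    rw [← h2, Real.fourierInv_eq']
    simp
  rw [hG, indicator_of_mem (by exact hu), mul_eq_zero] at h3
  rcases h3 with h3 | h3
  · exact_mod_cast h3
  · exact absurd h3 (Complex.exp_ne_zero _)

end Run7.h278.LM
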