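import Pool.Agent.Run7.h278.LM.Step

set_option autoImplicit false

/-!
# Finite sums of cosines
-/

namespace Run7.h278.LM

open Complex Filter Topology MeasureTheory Set

variable {ι : Type} (w t : ι → ℝ)

/-- the finite sum -/
noncomputable def FS (S : Finset ι) (u : ℝ) : ℝ := ∑ i ∈ S, 2 * w i * Real.cos (t i * u)

/-- a representation with control of the frequencies -/
structure Good (S : Finset ι) (κ : Type) (c θ : κ → ℝ) (p : κ → ℕ) : Prop where
  rp : Rp (FS w t S) κ c θ p
  spanA : ∀ i, ∃ n : ι → ℤ, θ i = ∑ k ∈ S, n k * t k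
  spanB : ∀ n : ι → ℤ, ∃ i, θ i = ∑ k ∈ S, 2 * n k * t k ∧ Even (p i)

theorem good_empty : Good w t ∅ Unit (fun _ => 1) (fun _ => 0) (fun _ => 0) := by
  refine ⟨?_, fun i => ⟨0, by simp⟩, fun n => ⟨(), by simp, by simp⟩⟩
  have : FS w t ∅ = fun _ => 0 := by
    funext u
    simp [FS]
  rw [this]
  exact Rp.zero

theorem good_insert [DecidableEq ι] {S : Finset ι} {j : ι} (hj : j ∉ S) (hw : 0 < w j) {κ : Type} {c θ : κ → ℝ} {p : κ → ℕ}
    (h : Good w t S κ c θ p) : Good w t (insert j S) (κ × (ℕ × ℕ))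
      (fun x => c x.1 * (w j ^ x.2.1 / (x.2.1.factorial : ℝ) * (w j ^ x.2.2 / (x.2.2.factorial : ℝ))))
      (fun x => θ x.1 + ((x.2.1 : ℝ) - x.2.2) * t j) (fun x => p x.1 + (x.2.1 + x.2.2)) := by
  refine ⟨?_, ?_, ?_⟩
  · have h1 := h.rp.mul (Rp.one hw (t j))
    have e : FS w t (insert j S) = fun u => FS w t S u + 2 * w j * Real.cos (t j * u) := by
      funext u
      unfold FS
      rw [Finset.sum_insert hj, add_comm]
    rw [e]
    exact h1
  · intro x
    obtain ⟨n, hn⟩ := h.spanA x.1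
    refine ⟨Function.update n j ((x.2.1 : ℤ) - x.2.2), ?_⟩
    rw [Finset.sum_insert hj, Function.update_self, hn, add_comm]
    congr 1
    · push_cast
      ring
    · refine Finset.sum_congr rfl fun k hk => ?_
      rw [Function.update_of_ne]
      rintro rfl
      exact hj hk
  · intro n
    obtain ⟨i, hi, hp⟩ := h.spanB n
    obtain ⟨a, b, hab⟩ : ∃ a b : ℕ, (a : ℤ) - b = n j := by
      rcases le_total 0 (n j) with h1 | h1
      · refine ⟨(n j).toNat, 0, ?_⟩
        rw [Int.toNat_of_nonneg h1]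
        simp
      · refine ⟨0, (-n j).toNat, ?_⟩
        rw [Int.toNat_of_nonneg (by linarith)]
        simp
    have hab' : (a : ℝ) - b = n j := by exact_mod_cast hab
    refine ⟨(i, (2 * a, 2 * b)), ?_, hp.add ⟨a + b, by ring⟩⟩
    rw [Finset.sum_insert hj, hi]
    push_cast
    linear_combination 2 * t j * hab'

variable (hw : ∀ i, 0 < w i)

include hw

theorem exists_good (S : Finset ι) : ∃ (κ : Type) (c θ : κ → ℝ) (p : κ → ℕ), Good w t S κ c θ p := by
  classical
  induction S using Finset.induction_on with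
  | empty => exact ⟨_, _, _, _, good_empty w t⟩
  | insert j S hj ih =>
    obtain ⟨κ, c, θ, p, h⟩ := ih
    exact ⟨_, _, _, _, good_insert w t hj (hw j) h⟩

omit hw

/-- the mean value -/
noncomputable def MM (S : Finset ι) : ℝ := limUnder (𝓝[>] (0 : ℝ)) (Am fun u => Real.cosh (FS w t S u))

theorem MM_eq {S : Finset ι} {κ : Type} {c θ : κ → ℝ} {p : κ → ℕ} (h : Good w t S κ c θ p) : MM w t S = Mn c θ p :=
  h.rp.tendsto.limUnder_eq

include hw

theorem MM_tendsto (S : Finset ι) : Tendsto (Am fun u => Real.cosh (FS w t S u)) (𝓝[>] 0) (𝓝 (MM w t S)) := by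
  obtain ⟨κ, c, θ, p, h⟩ := exists_good w t hw S
  rw [MM_eq w t h]
  exact h.rp.tendsto

theorem MM_ge [DecidableEq ι] {S : Finset ι} {j : ι} (hj : j ∉ S) : MM w t S * J (w j) ≤ MM w t (insert j S) := by
  obtain ⟨κ, c, θ, p, h⟩ := exists_good w t hw S
  rw [MM_eq w t h, MM_eq w t (good_insert w t hj (hw j) h)]
  exact Mp_ge h.rp.pos h.rp.sum (hw j) (t j)

theorem MM_ins_eq [DecidableEq ι] {S : Finset ι} {j : ι} (hj : j ∉ S) (hli : LinearIndepOn ℚ t (insert j S : Finset ι)) :
    MM w t (insert j S) = MM w t S * J (w j) := by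
  obtain ⟨κ, c, θ, p, h⟩ := exists_good w t hw S
  rw [MM_eq w t h, MM_eq w t (good_insert w t hj (hw j) h)]
  refine Mp_eq' h.rp.pos h.rp.sum (hw j) fun i n hn => ?_
  obtain ⟨m, hm⟩ := h.spanA i
  rw [linearIndepOn_finset_iff] at hli
  have h1 := hli (fun k => ((Function.update m j n k : ℤ) : ℚ)) (by
    rw [Finset.sum_insert hj]
    simp only [Function.update_self]
    rw [← hn, hm, add_comm]
    congr 1
    refine Finset.sum_congr rfl fun k hk => ?_
    rw [Function.update_of_ne (by rintro rfl; exact hj hk)]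
    simp [Algebra.smul_def]) j (Finset.mem_insert_self _ _)
  simpa using h1

theorem MM_ins_lt [DecidableEq ι] {S : Finset ι} {j : ι} (hj : j ∉ S) (hli : LinearIndepOn ℚ t (S : Set ι))
    (hld : ¬LinearIndepOn ℚ t (insert j S : Finset ι)) (ht : t j ≠ 0) :
    MM w t S * J (w j) < MM w t (insert j S) := by
  obtain ⟨κ, c, θ, p, h⟩ := exists_good w t hw S
  rw [MM_eq w t h, MM_eq w t (good_insert w t hj (hw j) h)]
  refine Mp_gt h.rp.pos h.rp.sum (hw j) ht ?_
  rw [linearIndepOn_finset_iff] at hli hld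
  push Not at hld
  obtain ⟨f, hf, i, hi, hfi⟩ := hld
  have hfj : f j ≠ 0 := by
    intro h0
    rw [Finset.sum_insert hj, h0, zero_smul, zero_add] at hf
    rcases Finset.mem_insert.1 hi with rfl | hi
    · exact hfi h0
    · exact hfi (hli f hf i hi)
  obtain ⟨b, hb⟩ := IsLocalization.exist_integer_multiples (nonZeroDivisors ℤ) (insert j S) f
  choose! n hn using hb
  have hb0 : ((b : ℤ) : ℚ) ≠ 0 := by
    have := nonZeroDivisors.ne_zero b.2
    exact_mod_cast this
  have hn' : ∀ k ∈ insert j S, (n k : ℚ) = (b : ℤ) * f k := by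
    intro k hk
    have := hn k hk
    simpa [Algebra.smul_def] using this
  have hnj : n j ≠ 0 := by
    intro h0
    have := hn' j (Finset.mem_insert_self _ _)
    rw [h0, Int.cast_zero] at this
    exact mul_ne_zero hb0 hfj this.symm
  have hrel : (n j : ℝ) * t j + ∑ k ∈ S, (n k : ℝ) * t k = 0 := by
    have h1 : ∀ k ∈ insert j S, (n k : ℝ) * t k = ((b : ℤ) : ℝ) * (f k • t k) := by
      intro k hk
      have h2 : (n k : ℝ) = ((b : ℤ) : ℝ) * ((f k : ℚ) : ℝ) := by
        have := hn' k hk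
        exact_mod_cast congrArg (fun q : ℚ => (q : ℝ)) this
      rw [h2, Algebra.smul_def]
      simp
      ring
    rw [← Finset.sum_insert (f := fun k => (n k : ℝ) * t k) hj, Finset.sum_congr rfl h1, ← Finset.mul_sum, hf, mul_zero]
  obtain ⟨i, hi, hp⟩ := h.spanB fun k => -n k
  refine ⟨i, n j, hnj, ?_, hp⟩
  rw [hi]
  have h3 : ∑ k ∈ S, 2 * ((-n k : ℤ) : ℝ) * t k = -2 * ∑ k ∈ S, (n k : ℝ) * t k := by
    rw [Finset.mul_sum]
    refine Finset.sum_congr rfl fun k _ => ?_
    push_cast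
    ring
  rw [h3]
  linear_combination -2 * hrel

end Run7.h278.LM
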