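import Pool.Agent.Run7.h278.LM.Dig

set_option autoImplicit false

/-!
# Laplace transforms
-/

namespace Run7.h278.LM

open Complex Filter Topology MeasureTheory Set Pool.Agent.H24R2.JP Run7.h278.WL Run7.h278.LI

theorem lap_exp_int {a : ℂ} (ha : 0 < a.re) (c : ℝ) : IntegrableOn (fun u : ℝ => cexp (-a * u)) (Ioi c) :=
  integrableOn_exp_mul_complex_Ioi (a := -a) (by simpa using ha) c

theorem lap_exp {a : ℂ} (ha : 0 < a.re) (c : ℝ) : ∫ u : ℝ in Ioi c, cexp (-a * u) = cexp (-a * c) / a := by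
  rw [integral_exp_mul_complex_Ioi (a := -a) (by simpa using ha) c, neg_div_neg_eq]

theorem lap_exp0 {a : ℂ} (ha : 0 < a.re) : ∫ u : ℝ in Ioi 0, cexp (-a * u) = 1 / a := by
  rw [lap_exp ha 0]
  simp

theorem norm_exp_neg (a : ℂ) (u : ℝ) : ‖cexp (-a * u)‖ = Real.exp (-a.re * u) := by
  rw [Complex.norm_exp]
  congr 1
  simp

/-- termwise Laplace transforms of sums of exponentials -/
theorem lap_sum {ι : Type*} {c a : ι → ℂ} {σ : ℝ} (hσ : 0 < σ) (ha : ∀ i, σ ≤ (a i).re)
    (hc : Summable fun i => ‖c i‖) [Countable ι] :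
    HasSum (fun i => c i * (1 / a i)) (∫ u : ℝ in Ioi 0, ∑' i, c i * cexp (-a i * u)) := by
  have hpos : ∀ i, 0 < (a i).re := fun i => hσ.trans_le (ha i)
  have h1 : ∀ i, Integrable (fun u : ℝ => c i * cexp (-a i * u)) (volume.restrict (Ioi 0)) :=
    fun i => (lap_exp_int (hpos i) 0).const_mul (c i)
  have h2 : ∀ i, ∫ u : ℝ in Ioi 0, ‖c i * cexp (-a i * u)‖ = ‖c i‖ * (1 / (a i).re) := by
    intro i
    have e : ∀ u : ℝ, ‖c i * cexp (-a i * u)‖ = ‖c i‖ * Real.exp (-(a i).re * u) := fun u => by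
      rw [norm_mul, norm_exp_neg]
    simp_rw [e]
    rw [integral_const_mul, integral_exp_mul_Ioi (a := -(a i).re) (by linarith [hpos i]) 0]
    simp
  have h3 : Summable fun i => ∫ u : ℝ in Ioi 0, ‖c i * cexp (-a i * u)‖ := by
    simp_rw [h2]
    refine Summable.of_nonneg_of_le (fun i => ?_) (fun i => ?_) (hc.mul_right (1 / σ))
    · have := hpos i
      positivity
    · have h4 : 1 / (a i).re ≤ 1 / σ := one_div_le_one_div_of_le hσ (ha i)
      gcongr
  have h4 := hasSum_integral_of_summable_integral_norm h1 h3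
  refine hs_congr h4 fun i => ?_
  rw [integral_const_mul, lap_exp0 (hpos i)]

/-- the Laplace transform of `u` -/
theorem lap_u {p : ℂ} (hp : 0 < p.re) : IntegrableOn (fun u : ℝ => (u : ℂ) * cexp (-p * u)) (Ioi 0) ∧
    ∫ u : ℝ in Ioi 0, (u : ℂ) * cexp (-p * u) = 1 / p ^ 2 := by
  have hp0 : p ≠ 0 := fun h => by rw [h] at hp; simp at hp
  set F : ℝ → ℂ := fun u => -((u : ℂ) / p + 1 / p ^ 2) * cexp (-p * u) with hF
  have hd : ∀ u ∈ Ioi (0 : ℝ), HasDerivAt F ((u : ℂ) * cexp (-p * u)) u := by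
    intro u _
    have h1 : HasDerivAt (fun u : ℝ => (u : ℂ)) 1 u := Complex.ofRealCLM.hasDerivAt
    have h2 : HasDerivAt (fun u : ℝ => -((u : ℂ) / p + 1 / p ^ 2)) (-(1 / p)) u :=
      ((h1.div_const p).add_const (1 / p ^ 2)).neg
    have h3 : HasDerivAt (fun u : ℝ => cexp (-p * u)) (cexp (-p * u) * (-p * 1)) u := (h1.const_mul (-p)).cexp
    have h4 := h2.mul h3
    have e : -(1 / p) * cexp (-p * u) + -((u : ℂ) / p + 1 / p ^ 2) * (cexp (-p * u) * (-p * 1)) =
        (u : ℂ) * cexp (-p * u) := by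
      field_simp
      ring
    rw [e] at h4
    exact h4
  have hc : ContinuousWithinAt F (Ici 0) 0 := by
    have : Continuous F := by
      rw [hF]
      fun_prop
    exact this.continuousWithinAt
  have hint : IntegrableOn (fun u : ℝ => (u : ℂ) * cexp (-p * u)) (Ioi 0) := by
    have h1 : IntegrableOn (fun u : ℝ => (2 / p.re) * Real.exp (-(p.re / 2) * u)) (Ioi 0) :=
      (integrableOn_exp_mul_Ioi (a := -(p.re / 2)) (by linarith) 0).const_mul _
    refine Integrable.mono' h1 (by fun_prop) ?_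
    refine (ae_restrict_mem measurableSet_Ioi).mono fun u hu => ?_
    have hu0 : (0 : ℝ) < u := hu
    rw [norm_mul, norm_exp_neg, Complex.norm_real, Real.norm_eq_abs, abs_of_pos hu0]
    have h2 : p.re / 2 * u ≤ Real.exp (p.re / 2 * u) := by
      have := Real.add_one_le_exp (p.re / 2 * u)
      linarith
    have h3 : Real.exp (-p.re * u) = Real.exp (-(p.re / 2) * u) * Real.exp (-(p.re / 2) * u) := by
      rw [← Real.exp_add]
      congr 1
      ring
    have h4 : Real.exp (p.re / 2 * u) * Real.exp (-(p.re / 2) * u) = 1 := by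
      rw [← Real.exp_add]
      have : p.re / 2 * u + -(p.re / 2) * u = 0 := by ring
      rw [this, Real.exp_zero]
    have h5 : 0 < Real.exp (-(p.re / 2) * u) := Real.exp_pos _
    have h6 : p.re / 2 * u * Real.exp (-(p.re / 2) * u) ≤ 1 := by
      rw [← h4]
      gcongr
    rw [h3]
    have h7 : u * Real.exp (-(p.re / 2) * u) ≤ 2 / p.re := by
      rw [le_div_iff₀ hp]
      linarith
    calc u * (Real.exp (-(p.re / 2) * u) * Real.exp (-(p.re / 2) * u)) =
        (u * Real.exp (-(p.re / 2) * u)) * Real.exp (-(p.re / 2) * u) := by ring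
      _ ≤ _ := by gcongr
  refine ⟨hint, ?_⟩
  have htend : Tendsto F atTop (𝓝 0) := by
    rw [tendsto_zero_iff_norm_tendsto_zero]
    have h1 : Tendsto (fun u : ℝ => (u ^ 1 * Real.exp (-p.re * u)) * (1 / ‖p‖) + 1 / ‖p‖ ^ 2 * Real.exp (-p.re * u)) atTop (𝓝 0) := by
      have a2 : Tendsto (fun u : ℝ => u ^ 1 * Real.exp (-p.re * u)) atTop (𝓝 0) := by
        simpa using tendsto_rpow_mul_exp_neg_mul_atTop_nhds_zero 1 p.re hp
      have a3 : Tendsto (fun u : ℝ => Real.exp (-p.re * u)) atTop (𝓝 0) := by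
        simpa using tendsto_rpow_mul_exp_neg_mul_atTop_nhds_zero 0 p.re hp
      have a4 := (a2.mul_const (1 / ‖p‖)).add (a3.const_mul (1 / ‖p‖ ^ 2))
      rw [zero_mul, mul_zero, add_zero] at a4
      exact a4
    refine squeeze_zero' (Eventually.of_forall fun u => norm_nonneg _) ?_ h1
    filter_upwards [eventually_gt_atTop 0] with u hu
    rw [hF]
    beta_reduce
    rw [norm_mul, norm_neg, norm_exp_neg]
    have h2 : ‖(u : ℂ) / p + 1 / p ^ 2‖ ≤ u / ‖p‖ + 1 / ‖p‖ ^ 2 := by
      refine (norm_add_le _ _).trans ?_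
      rw [norm_div, norm_div, norm_one, norm_pow, Complex.norm_real, Real.norm_eq_abs, abs_of_pos hu]
    have h3 : 0 < Real.exp (-p.re * u) := Real.exp_pos _
    calc ‖(u : ℂ) / p + 1 / p ^ 2‖ * Real.exp (-p.re * u) ≤ (u / ‖p‖ + 1 / ‖p‖ ^ 2) * Real.exp (-p.re * u) := by gcongr
      _ = _ := by ring
  rw [integral_Ioi_of_hasDerivAt_of_tendsto hc hd hint htend]
  rw [hF]
  simp

/-! ### The sum over the prime powers -/

/-- `∑_{n ≤ e^u} Λ(n) (1/n - e^(-u))` -/
noncomputable def SS (u : ℝ) : ℝ :=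
  ∑ n ∈ Finset.Icc 1 ⌊Real.exp u⌋₊, ArithmeticFunction.vonMangoldt n * (1 / (n : ℝ) - Real.exp (-u))

noncomputable def st (n : ℕ) (u : ℝ) : ℝ := ArithmeticFunction.vonMangoldt n * max (1 / (n : ℝ) - Real.exp (-u)) 0

theorem st_nonneg (n : ℕ) (u : ℝ) : 0 ≤ st n u := mul_nonneg ArithmeticFunction.vonMangoldt_nonneg (le_max_right _ _)

theorem st_zero {n : ℕ} {u : ℝ} (h : Real.exp u ≤ n) : st n u = 0 := by
  unfold st
  rw [max_eq_right, mul_zero]
  have h0 : 0 < Real.exp u := Real.exp_pos u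
  have : 1 / (n : ℝ) ≤ 1 / Real.exp u := one_div_le_one_div_of_le h0 h
  rw [Real.exp_neg, ← one_div]
  linarith

theorem SS_eq {u : ℝ} {N : ℕ} (hN : Real.exp u < N) : SS u = ∑ n ∈ Finset.range N, st n u := by
  unfold SS
  have h0 : 0 < Real.exp u := Real.exp_pos u
  have hsub : Finset.Icc 1 ⌊Real.exp u⌋₊ ⊆ Finset.range N := by
    intro n hn
    rw [Finset.mem_Icc] at hn
    rw [Finset.mem_range]
    have : (n : ℝ) ≤ Real.exp u := (Nat.le_floor_iff h0.le).1 hn.2
    exact_mod_cast this.trans_lt hN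
  rw [← Finset.sum_subset hsub]
  · refine Finset.sum_congr rfl fun n hn => ?_
    rw [Finset.mem_Icc] at hn
    unfold st
    rw [max_eq_left]
    have h1 : (n : ℝ) ≤ Real.exp u := (Nat.le_floor_iff h0.le).1 hn.2
    have h2 : (0 : ℝ) < n := by exact_mod_cast hn.1
    have : 1 / Real.exp u ≤ 1 / (n : ℝ) := one_div_le_one_div_of_le h2 h1
    rw [Real.exp_neg, ← one_div]
    linarith
  · intro n _ hn
    rw [Finset.mem_Icc] at hn
    push Not at hn
    rcases Nat.eq_zero_or_pos n with h1 | h1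
    · rw [h1]
      unfold st
      simp
    · have h2 := hn h1
      exact st_zero ((Nat.lt_of_floor_lt h2).le)

theorem SS_hasSum (u : ℝ) : HasSum (fun n => st n u) (SS u) := by
  obtain ⟨N, hN⟩ := exists_nat_gt (Real.exp u)
  rw [SS_eq hN]
  refine hasSum_sum_of_ne_finset_zero fun n hn => ?_
  rw [Finset.mem_range] at hn
  push Not at hn
  refine st_zero ?_
  have : (N : ℝ) ≤ n := by exact_mod_cast hn
  linarith

theorem SS_cont : Continuous SS := by
  rw [continuous_iff_continuousAt]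
  intro u
  obtain ⟨N, hN⟩ := exists_nat_gt (Real.exp u)
  have h1 : SS =ᶠ[𝓝 u] fun u => ∑ n ∈ Finset.range N, st n u := by
    filter_upwards [Real.continuous_exp.continuousAt.eventually (gt_mem_nhds hN)] with y hy
    exact SS_eq hy
  refine ContinuousAt.congr ?_ h1.symm
  refine Continuous.continuousAt ?_
  unfold st
  fun_prop

theorem SS_nonneg (u : ℝ) : 0 ≤ SS u := (SS_hasSum u).nonneg fun n => st_nonneg n u

theorem SS_le (u : ℝ) : SS u ≤ Real.exp u := by
  have h0 : 0 < Real.exp u := Real.exp_pos u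
  unfold SS
  calc ∑ n ∈ Finset.Icc 1 ⌊Real.exp u⌋₊, ArithmeticFunction.vonMangoldt n * (1 / (n : ℝ) - Real.exp (-u))
      ≤ ∑ n ∈ Finset.Icc 1 ⌊Real.exp u⌋₊, (1 : ℝ) := by
        refine Finset.sum_le_sum fun n hn => ?_
        rw [Finset.mem_Icc] at hn
        have h2 : (0 : ℝ) < n := by exact_mod_cast hn.1
        have h3 : ArithmeticFunction.vonMangoldt n ≤ Real.log n := ArithmeticFunction.vonMangoldt_le_log
        have h4 : Real.log n ≤ n := (Real.log_le_sub_one_of_pos h2).trans (by linarith)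
        have h5 : 0 ≤ ArithmeticFunction.vonMangoldt n := ArithmeticFunction.vonMangoldt_nonneg
        have h6 : 0 < Real.exp (-u) := Real.exp_pos _
        calc ArithmeticFunction.vonMangoldt n * (1 / (n : ℝ) - Real.exp (-u)) ≤ ArithmeticFunction.vonMangoldt n * (1 / (n : ℝ)) := by
              gcongr
              linarith
          _ ≤ n * (1 / (n : ℝ)) := by
              have := h3.trans h4
              gcongr
          _ = 1 := by field_simp
    _ = (⌊Real.exp u⌋₊ : ℝ) := by simp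
    _ ≤ Real.exp u := Nat.floor_le h0.le

/-- the transform of one term -/
theorem st_lap {n : ℕ} (hn : 1 ≤ n) {p : ℂ} (hp : 0 < p.re) :
    IntegrableOn (fun u : ℝ => ((max (1 / (n : ℝ) - Real.exp (-u)) 0 : ℝ) : ℂ) * cexp (-p * u)) (Ioi 0) ∧
    ∫ u : ℝ in Ioi 0, ((max (1 / (n : ℝ) - Real.exp (-u)) 0 : ℝ) : ℂ) * cexp (-p * u) =
      1 / (p * (p + 1)) * (1 / (n : ℂ) ^ (p + 1)) := by
  have hn0 : (0 : ℝ) < n := by exact_mod_cast hn
  have hlog : 0 ≤ Real.log n := Real.log_nonneg (by exact_mod_cast hn)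
  have hp0 : p ≠ 0 := fun h => by rw [h] at hp; simp at hp
  have hp1 : p + 1 ≠ 0 := by
    intro h
    have := congrArg Complex.re h
    simp at this
    linarith
  have hp1re : 0 < (p + 1).re := by simp; linarith
  have key : ∀ u : ℝ, ((max (1 / (n : ℝ) - Real.exp (-u)) 0 : ℝ) : ℂ) * cexp (-p * u) =
      (Ioi (Real.log n)).indicator (fun u : ℝ => 1 / (n : ℂ) * cexp (-p * u) - cexp (-(p + 1) * u)) u := by
    intro u
    by_cases hu : u ∈ Ioi (Real.log n)
    · rw [indicator_of_mem hu]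
      have hu' : Real.log n < u := hu
      have h1 : (n : ℝ) < Real.exp u := by
        rw [← Real.log_lt_iff_lt_exp hn0]
        exact hu'
      have h2 : Real.exp (-u) ≤ 1 / (n : ℝ) := by
        rw [Real.exp_neg, ← one_div]
        exact one_div_le_one_div_of_le hn0 h1.le
      rw [max_eq_left (by linarith)]
      have h3 : cexp (-(p + 1) * u) = cexp (-u) * cexp (-p * u) := by
        rw [← Complex.exp_add]
        congr 1
        ring
      rw [h3]
      push_cast
      ring
    · rw [indicator_of_notMem hu]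
      have hu' : u ≤ Real.log n := by simpa using hu
      have h1 : Real.exp u ≤ n := by
        rw [← Real.le_log_iff_exp_le hn0]
        exact hu'
      have h2 : 1 / (n : ℝ) ≤ Real.exp (-u) := by
        rw [Real.exp_neg, ← one_div]
        exact one_div_le_one_div_of_le (Real.exp_pos u) h1
      rw [max_eq_right (by linarith)]
      simp
  have hi1 : IntegrableOn (fun u : ℝ => 1 / (n : ℂ) * cexp (-p * u) - cexp (-(p + 1) * u)) (Ioi (Real.log n)) :=
    ((lap_exp_int hp _).const_mul _).sub (lap_exp_int hp1re _)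
  have hsub : Ioi (Real.log n) ⊆ Ioi (0 : ℝ) := Ioi_subset_Ioi hlog
  constructor
  · refine IntegrableOn.congr_fun ?_ (fun u _ => (key u).symm) measurableSet_Ioi
    exact ((integrable_indicator_iff measurableSet_Ioi).2 hi1).integrableOn
  · simp_rw [key]
    rw [setIntegral_indicator measurableSet_Ioi, inter_eq_self_of_subset_right hsub,
      integral_sub ((lap_exp_int hp _).const_mul _) (lap_exp_int hp1re _), integral_const_mul, lap_exp hp, lap_exp hp1re]
    have hnc : (n : ℂ) ≠ 0 := by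
      have : n ≠ 0 := by omega
      exact_mod_cast this
    have h1 : cexp (-p * Real.log n) = 1 / (n : ℂ) ^ p := by
      rw [Complex.cpow_def_of_ne_zero hnc, one_div, ← Complex.exp_neg, Complex.natCast_log]
      congr 1
      ring
    have h2 : cexp (-(p + 1) * Real.log n) = 1 / (n : ℂ) ^ (p + 1) := by
      rw [Complex.cpow_def_of_ne_zero hnc, one_div, ← Complex.exp_neg, Complex.natCast_log]
      congr 1
      ring
    rw [h1, h2, Complex.cpow_add _ _ hnc, Complex.cpow_one]
    have h3 : (n : ℂ) ^ p ≠ 0 := by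
      rw [Complex.cpow_def_of_ne_zero hnc]
      exact Complex.exp_ne_zero _
    field_simp
    ring

end Run7.h278.LM
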