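import Pool.Agent.Run7.h278.LM.Lap

set_option autoImplicit false

/-!
# Abel means of exponentials of trigonometric sums
-/

namespace Run7.h278.LM

open Complex Filter Topology MeasureTheory Set

/-- the Abel mean -/
noncomputable def Am (f : ℝ → ℝ) (δ : ℝ) : ℝ := δ * ∫ u : ℝ in Ioi 0, Real.exp (-δ * u) * f u

/-- a representation of `exp (F u)` and `exp (-F u)` as sums of exponentials -/
structure Rp (F : ℝ → ℝ) (κ : Type) (c θ : κ → ℝ) (p : κ → ℕ) : Prop where
  pos : ∀ i, 0 < c i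
  sum : Summable c
  rep : ∀ ε : ℝ, (ε = 1 ∨ ε = -1) → ∀ u : ℝ, HasSum (fun i => ((c i * ε ^ (p i) : ℝ) : ℂ) * cexp (I * θ i * u)) (cexp (ε * F u))

theorem norm_I (θ u : ℝ) : ‖cexp (I * θ * u)‖ = 1 := by
  rw [Complex.norm_exp]
  simp

theorem eps_abs {ε : ℝ} (h : ε = 1 ∨ ε = -1) (n : ℕ) : |ε ^ n| = 1 := by
  rcases h with rfl | rfl <;> simp

theorem Rp.mul {F G : ℝ → ℝ} {κ κ' : Type} {c θ : κ → ℝ} {p : κ → ℕ} {c' θ' : κ' → ℝ} {p' : κ' → ℕ}
    (h : Rp F κ c θ p) (h' : Rp G κ' c' θ' p') :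
    Rp (fun u => F u + G u) (κ × κ') (fun x => c x.1 * c' x.2) (fun x => θ x.1 + θ' x.2) (fun x => p x.1 + p' x.2) := by
  refine ⟨fun x => mul_pos (h.pos _) (h'.pos _), h.sum.mul_of_nonneg h'.sum (fun i => (h.pos i).le) (fun i => (h'.pos i).le), ?_⟩
  · intro ε hε u
    have h1 := h.rep ε hε u
    have h2 := h'.rep ε hε u
    have n1 : Summable fun i => ‖((c i * ε ^ (p i) : ℝ) : ℂ) * cexp (I * θ i * u)‖ := by
      refine h.sum.congr fun i => ?_
      rw [norm_mul, norm_I, Complex.norm_real, Real.norm_eq_abs, abs_mul, eps_abs hε, abs_of_pos (h.pos i), mul_one, mul_one]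
    have n2 : Summable fun i => ‖((c' i * ε ^ (p' i) : ℝ) : ℂ) * cexp (I * θ' i * u)‖ := by
      refine h'.sum.congr fun i => ?_
      rw [norm_mul, norm_I, Complex.norm_real, Real.norm_eq_abs, abs_mul, eps_abs hε, abs_of_pos (h'.pos i), mul_one, mul_one]
    have hs := summable_mul_of_summable_norm n1 n2
    have h3 := HasSum.mul (f := fun i => ((c i * ε ^ (p i) : ℝ) : ℂ) * cexp (I * θ i * u))
      (g := fun i => ((c' i * ε ^ (p' i) : ℝ) : ℂ) * cexp (I * θ' i * u)) h1 h2 hs
    rw [← Complex.exp_add] at h3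
    have e : (ε : ℂ) * F u + ε * G u = ε * ((F u + G u : ℝ) : ℂ) := by
      push_cast
      ring
    rw [e] at h3
    refine hs_congr h3 fun x => ?_
    push_cast
    rw [pow_add, show I * ((θ x.1 : ℂ) + θ' x.2) * u = I * θ x.1 * u + I * θ' x.2 * u by ring, Complex.exp_add]
    ring

/-- one cosine -/
theorem Rp.one {w : ℝ} (hw : 0 < w) (t : ℝ) : Rp (fun u => 2 * w * Real.cos (t * u)) (ℕ × ℕ)
    (fun x => w ^ x.1 / (x.1.factorial : ℝ) * (w ^ x.2 / (x.2.factorial : ℝ)))
    (fun x => ((x.1 : ℝ) - x.2) * t) (fun x => x.1 + x.2) := by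
  refine ⟨fun x => by positivity, ?_, ?_⟩
  · have h := Real.summable_pow_div_factorial w
    exact h.mul_of_nonneg h (fun i => by positivity) (fun i => by positivity)
  · intro ε hε u
    have hexp : ∀ z : ℂ, HasSum (fun n : ℕ => z ^ n / (n.factorial : ℂ)) (cexp z) := by
      intro z
      have := NormedSpace.expSeries_div_hasSum_exp z
      rw [← Complex.exp_eq_exp_ℂ] at this
      exact this
    have hn : ∀ z : ℂ, Summable fun n : ℕ => ‖z ^ n / (n.factorial : ℂ)‖ := by
      intro z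
      refine (Real.summable_pow_div_factorial ‖z‖).congr fun n => ?_
      rw [norm_div, norm_pow, Complex.norm_natCast]
    have hs := summable_mul_of_summable_norm (hn (ε * w * cexp (I * t * u))) (hn (ε * w * cexp (-(I * t * u))))
    have h3 := HasSum.mul (f := fun n : ℕ => (ε * w * cexp (I * t * u)) ^ n / (n.factorial : ℂ))
      (g := fun n : ℕ => (ε * w * cexp (-(I * t * u))) ^ n / (n.factorial : ℂ))
      (hexp (ε * w * cexp (I * t * u))) (hexp (ε * w * cexp (-(I * t * u)))) hs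
    rw [← Complex.exp_add] at h3
    have e : (ε : ℂ) * w * cexp (I * t * u) + ε * w * cexp (-(I * t * u)) = ε * ((2 * w * Real.cos (t * u) : ℝ) : ℂ) := by
      push_cast
      rw [Complex.cos, show (t : ℂ) * u * I = I * t * u by ring, show -((t : ℂ) * u) * I = -(I * t * u) by ring]
      ring
    rw [e] at h3
    refine hs_congr h3 fun x => ?_
    rw [mul_pow, mul_pow, mul_pow, mul_pow, ← Complex.exp_nat_mul, ← Complex.exp_nat_mul]
    have e2 : cexp (I * (((x.1 : ℝ) - x.2) * t : ℝ) * u) = cexp ((x.1 : ℂ) * (I * t * u)) * cexp ((x.2 : ℂ) * (-(I * t * u))) := by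
      rw [← Complex.exp_add]
      congr 1
      push_cast
      ring
    rw [e2]
    push_cast
    rw [pow_add]
    ring

/-- the empty sum -/
theorem Rp.zero : Rp (fun _ => 0) Unit (fun _ => 1) (fun _ => 0) (fun _ => 0) := by
  refine ⟨fun _ => one_pos, (hasSum_fintype _).summable, ?_⟩
  intro ε hε u
  have := hasSum_fintype (fun _ : Unit => (1 : ℂ))
  simpa using this

/-- the mean value belonging to a representation -/
noncomputable def Mn {κ : Type} (c θ : κ → ℝ) (p : κ → ℕ) : ℝ := by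
  classical
  exact ∑' i, if θ i = 0 ∧ Even (p i) then c i else 0

theorem tend_one (θ : ℝ) : Tendsto (fun δ : ℝ => (δ : ℂ) * (1 / ((δ : ℂ) - I * θ))) (𝓝[>] 0) (𝓝 (if θ = 0 then 1 else 0)) := by
  split_ifs with h
  · rw [h]
    refine tendsto_const_nhds.congr' ?_
    filter_upwards [self_mem_nhdsWithin] with δ hδ
    have hδ' : (δ : ℂ) ≠ 0 := by
      have : (0 : ℝ) < δ := hδ
      exact_mod_cast this.ne'
    simp [hδ']
  · have h1 : ContinuousAt (fun δ : ℝ => (δ : ℂ) * (1 / ((δ : ℂ) - I * θ))) 0 := by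
      have h2 : ((0 : ℝ) : ℂ) - I * θ ≠ 0 := by
        simp [h]
      fun_prop (disch := exact h2)
    have h2 := h1.tendsto
    simp only [Complex.ofReal_zero, zero_mul] at h2
    exact h2.mono_left nhdsWithin_le_nhds

theorem norm_one_le {δ : ℝ} (hδ : 0 < δ) (θ : ℝ) : ‖(δ : ℂ) * (1 / ((δ : ℂ) - I * θ))‖ ≤ 1 := by
  rw [norm_mul, norm_div, norm_one, Complex.norm_real, Real.norm_eq_abs, abs_of_pos hδ, mul_one_div]
  have h1 : δ ≤ ‖(δ : ℂ) - I * θ‖ := by
    have := Complex.abs_re_le_norm ((δ : ℂ) - I * θ)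
    simp at this
    exact (le_abs_self _).trans this
  rw [div_le_one (by linarith)]
  exact h1

theorem Rp.countable {F : ℝ → ℝ} {κ : Type} {c θ : κ → ℝ} {p : κ → ℕ} (h : Rp F κ c θ p) : Countable κ := by
  have h1 := h.sum.countable_support
  have h2 : Function.support c = univ := by
    ext i
    simp [(h.pos i).ne']
  rw [h2] at h1
  exact countable_univ_iff.1 h1

/-- **The mean value of the hyperbolic cosine.** -/
theorem Rp.tendsto {F : ℝ → ℝ} {κ : Type} {c θ : κ → ℝ} {p : κ → ℕ} (h : Rp F κ c θ p) :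
    Tendsto (Am fun u => Real.cosh (F u)) (𝓝[>] 0) (𝓝 (Mn c θ p)) := by
  classical
  haveI := h.countable
  set d : κ → ℝ := fun i => if Even (p i) then c i else 0 with hd
  have hd0 : ∀ i, 0 ≤ d i := fun i => by
    rw [hd]
    simp only
    split_ifs
    · exact (h.pos i).le
    · exact le_refl 0
  have hdc : ∀ i, d i ≤ c i := fun i => by
    rw [hd]
    simp only
    split_ifs
    · exact le_refl _
    · exact (h.pos i).le
  have hds : Summable d := Summable.of_nonneg_of_le hd0 hdc h.sum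
  have hdn : Summable fun i => ‖(d i : ℂ)‖ := by
    refine hds.congr fun i => ?_
    rw [Complex.norm_real, Real.norm_eq_abs, abs_of_nonneg (hd0 i)]
  have hrep : ∀ u : ℝ, HasSum (fun i => (d i : ℂ) * cexp (I * θ i * u)) ((Real.cosh (F u) : ℝ) : ℂ) := by
    intro u
    have h1 := (h.rep 1 (Or.inl rfl) u).add (h.rep (-1) (Or.inr rfl) u)
    have h2 := h1.div_const 2
    have e : (cexp ((1 : ℝ) * F u) + cexp ((-1 : ℝ) * F u)) / 2 = ((Real.cosh (F u) : ℝ) : ℂ) := by
      rw [Complex.ofReal_cosh, Complex.cosh]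
      push_cast
      rw [one_mul, neg_one_mul]
    rw [e] at h2
    refine hs_congr h2 fun i => ?_
    rw [hd]
    simp only
    split_ifs with hev
    · rw [hev.neg_one_pow]
      push_cast
      ring
    · rw [(Nat.not_even_iff_odd.1 hev).neg_one_pow]
      push_cast
      ring
  have hval : ∀ δ : ℝ, 0 < δ → ((Am (fun u => Real.cosh (F u)) δ : ℝ) : ℂ) = ∑' i, (d i : ℂ) * ((δ : ℂ) * (1 / ((δ : ℂ) - I * θ i))) := by
    intro δ hδ
    have h1 := lap_sum (c := fun i => (d i : ℂ)) (a := fun i => (δ : ℂ) - I * θ i) hδ (fun i => by simp) hdn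
    unfold Am
    rw [Complex.ofReal_mul, ← integral_complex_ofReal]
    have h2 : ∀ u : ℝ, ((Real.exp (-δ * u) * Real.cosh (F u) : ℝ) : ℂ) = ∑' i, (d i : ℂ) * cexp (-((δ : ℂ) - I * θ i) * u) := by
      intro u
      rw [Complex.ofReal_mul, ← (hrep u).tsum_eq, ← tsum_mul_left]
      refine tsum_congr fun i => ?_
      have h3 : cexp (-((δ : ℂ) - I * θ i) * u) = ((Real.exp (-δ * u) : ℝ) : ℂ) * cexp (I * θ i * u) := by
        push_cast
        rw [← Complex.exp_add]
        congr 1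
        ring
      rw [h3]
      ring
    simp_rw [h2]
    rw [← h1.tsum_eq, ← tsum_mul_left]
    refine tsum_congr fun i => ?_
    ring
  have hlim : Tendsto (fun δ : ℝ => ∑' i, (d i : ℂ) * ((δ : ℂ) * (1 / ((δ : ℂ) - I * θ i)))) (𝓝[>] 0)
      (𝓝 (∑' i, (d i : ℂ) * (if θ i = 0 then 1 else 0))) := by
    refine tendsto_tsum_of_dominated_convergence hdn (fun i => (tend_one (θ i)).const_mul _) ?_
    filter_upwards [self_mem_nhdsWithin] with δ hδ i
    rw [norm_mul]
    exact mul_le_of_le_one_right (norm_nonneg _) (norm_one_le hδ _)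
  have e : ∑' i, (d i : ℂ) * (if θ i = 0 then 1 else 0) = ((Mn c θ p : ℝ) : ℂ) := by
    unfold Mn
    rw [Complex.ofReal_tsum]
    refine tsum_congr fun i => ?_
    rw [hd]
    simp only
    by_cases h1 : θ i = 0 <;> by_cases h2 : Even (p i) <;> simp [h1, h2]
  rw [e] at hlim
  have h4 : Tendsto (fun δ : ℝ => ((Am (fun u => Real.cosh (F u)) δ : ℝ) : ℂ)) (𝓝[>] 0) (𝓝 ((Mn c θ p : ℝ) : ℂ)) := by
    refine hlim.congr' ?_
    filter_upwards [self_mem_nhdsWithin] with δ hδ
    exact (hval δ hδ).symm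
  have h5 := (Complex.continuous_re.tendsto _).comp h4
  exact h5

end Run7.h278.LM
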