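import Pool.Agent.Run7.h278.LM.Mean

set_option autoImplicit false

/-!
# One more frequency
-/

namespace Run7.h278.LM

open Complex Filter Topology MeasureTheory Set

/-- `J w = I_0 (2 w)` -/
noncomputable def J (w : ℝ) : ℝ := ∑' k : ℕ, (w ^ k / (k.factorial : ℝ)) ^ 2

theorem J_summable (w : ℝ) : Summable fun k : ℕ => (w ^ k / (k.factorial : ℝ)) ^ 2 := by
  have h := Real.summable_pow_div_factorial (w ^ 2)
  refine Summable.of_nonneg_of_le (fun k => sq_nonneg _) (fun k => ?_) h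
  rw [div_pow, ← pow_mul, mul_comm k 2, pow_mul]
  have h1 : (1 : ℝ) ≤ (k.factorial : ℝ) := by exact_mod_cast Nat.one_le_iff_ne_zero.2 (Nat.factorial_ne_zero k)
  have h2 : (k.factorial : ℝ) ≤ (k.factorial : ℝ) ^ 2 := by nlinarith
  gcongr

theorem J_le (w : ℝ) : J w ≤ Real.exp (w ^ 2) := by
  have h := Real.summable_pow_div_factorial (w ^ 2)
  have h1 : Real.exp (w ^ 2) = ∑' k : ℕ, (w ^ 2) ^ k / (k.factorial : ℝ) := by
    rw [Real.exp_eq_exp_ℝ, NormedSpace.exp_eq_tsum_div]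
  rw [h1]
  refine (J_summable w).tsum_le_tsum (fun k => ?_) h
  rw [div_pow, ← pow_mul, mul_comm k 2, pow_mul]
  have h1 : (1 : ℝ) ≤ (k.factorial : ℝ) := by exact_mod_cast Nat.one_le_iff_ne_zero.2 (Nat.factorial_ne_zero k)
  have h2 : (k.factorial : ℝ) ≤ (k.factorial : ℝ) ^ 2 := by nlinarith
  gcongr

theorem one_le_J (w : ℝ) : 1 ≤ J w := by
  have h := (J_summable w).le_tsum 0 fun k _ => sq_nonneg _
  unfold J
  simpa using h

/-- the weights of one frequency -/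
noncomputable def dd1 (w : ℝ) (x : ℕ × ℕ) : ℝ := w ^ x.1 / (x.1.factorial : ℝ) * (w ^ x.2 / (x.2.factorial : ℝ))

theorem dd1_pos {w : ℝ} (hw : 0 < w) (x : ℕ × ℕ) : 0 < dd1 w x := by
  unfold dd1
  positivity

theorem dd1_sum {w : ℝ} (hw : 0 < w) : Summable (dd1 w) := (Rp.one hw 0).sum

theorem J_pair (w : ℝ) : HasSum (fun x : ℕ × ℕ => if x.1 = x.2 then dd1 w x else 0) (J w) := by
  have hinj : Function.Injective fun k : ℕ => (k, k) := fun a b h => (Prod.mk.inj h).1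
  have h1 : HasSum ((fun x : ℕ × ℕ => if x.1 = x.2 then dd1 w x else 0) ∘ fun k : ℕ => (k, k)) (J w) := by
    refine hs_congr (J_summable w).hasSum fun k => ?_
    simp only [Function.comp_apply, if_true]
    unfold dd1
    ring
  refine (hinj.hasSum_iff ?_).1 h1
  intro x hx
  rw [if_neg]
  intro h
  apply hx
  exact ⟨x.1, Prod.ext rfl h⟩

section

variable {κ : Type} {c θ : κ → ℝ} {p : κ → ℕ}

theorem Mn_summable (h0 : ∀ i, 0 < c i) (hc : Summable c) (P : κ → Prop) [DecidablePred P] :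
    Summable fun i => if P i then c i else 0 := by
  refine Summable.of_nonneg_of_le (fun i => ?_) (fun i => ?_) hc
  · split_ifs
    · exact (h0 i).le
    · exact le_refl 0
  · split_ifs
    · exact le_refl _
    · exact (h0 i).le

theorem Mn_mul (h0 : ∀ i, 0 < c i) (hc : Summable c) {w : ℝ} [∀ i, Decidable (θ i = 0 ∧ Even (p i))] :
    Mn c θ p * J w = ∑' x : κ × (ℕ × ℕ), if (θ x.1 = 0 ∧ Even (p x.1)) ∧ x.2.1 = x.2.2 then c x.1 * dd1 w x.2 else 0 := by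
  classical
  have h1 : Summable fun i => if θ i = 0 ∧ Even (p i) then c i else 0 := Mn_summable h0 hc _
  have h2 := J_pair w
  have hn1 : Summable fun i => ‖if θ i = 0 ∧ Even (p i) then c i else 0‖ := h1.norm
  have hn2 : Summable fun x : ℕ × ℕ => ‖if x.1 = x.2 then dd1 w x else 0‖ := h2.summable.norm
  have h3 := tsum_mul_tsum_of_summable_norm hn1 hn2
  rw [h2.tsum_eq] at h3
  have h4 : Mn c θ p = ∑' i, if θ i = 0 ∧ Even (p i) then c i else 0 := by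
    unfold Mn
    refine tsum_congr fun i => ?_
    congr
  rw [h4, h3]
  refine tsum_congr fun x => ?_
  by_cases a1 : θ x.1 = 0 ∧ Even (p x.1) <;> by_cases a2 : x.2.1 = x.2.2 <;> simp [a1, a2]

/-- the mean value for the product -/
noncomputable def Mp (c θ : κ → ℝ) (p : κ → ℕ) (w t : ℝ) : ℝ :=
  Mn (κ := κ × (ℕ × ℕ)) (fun x => c x.1 * (w ^ x.2.1 / (x.2.1.factorial : ℝ) * (w ^ x.2.2 / (x.2.2.factorial : ℝ))))
    (fun x => θ x.1 + ((x.2.1 : ℝ) - x.2.2) * t) (fun x => p x.1 + (x.2.1 + x.2.2))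

theorem Mp_eq (w t : ℝ) [∀ x : κ × (ℕ × ℕ), Decidable (θ x.1 + ((x.2.1 : ℝ) - x.2.2) * t = 0 ∧ Even (p x.1 + (x.2.1 + x.2.2)))] :
    Mp c θ p w t = ∑' x : κ × (ℕ × ℕ), if θ x.1 + ((x.2.1 : ℝ) - x.2.2) * t = 0 ∧ Even (p x.1 + (x.2.1 + x.2.2)) then
      c x.1 * dd1 w x.2 else 0 := by
  unfold Mp Mn
  refine tsum_congr fun x => ?_
  unfold dd1
  congr

theorem cd_sum (h0 : ∀ i, 0 < c i) (hc : Summable c) {w : ℝ} (hw : 0 < w) :
    Summable fun x : κ × (ℕ × ℕ) => c x.1 * dd1 w x.2 :=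
  hc.mul_of_nonneg (dd1_sum hw) (fun i => (h0 i).le) (fun x => (dd1_pos hw x).le)

theorem Mp_ge (h0 : ∀ i, 0 < c i) (hc : Summable c) {w : ℝ} (hw : 0 < w) (t : ℝ) :
    Mn c θ p * J w ≤ Mp c θ p w t := by
  classical
  rw [Mn_mul h0 hc, Mp_eq]
  have hpos : ∀ x : κ × (ℕ × ℕ), 0 < c x.1 * dd1 w x.2 := fun x => mul_pos (h0 _) (dd1_pos hw _)
  refine Summable.tsum_le_tsum (fun x => ?_) (Mn_summable hpos (cd_sum h0 hc hw) _) (Mn_summable hpos (cd_sum h0 hc hw) _)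
  by_cases h1 : (θ x.1 = 0 ∧ Even (p x.1)) ∧ x.2.1 = x.2.2
  · rw [if_pos h1, if_pos]
    obtain ⟨⟨a1, a2⟩, a3⟩ := h1
    rw [a3, a1, sub_self, zero_mul, add_zero]
    exact ⟨rfl, a2.add ⟨x.2.2, rfl⟩⟩
  · rw [if_neg h1]
    split_ifs
    · exact (hpos x).le
    · exact le_refl 0

theorem Mp_eq' (h0 : ∀ i, 0 < c i) (hc : Summable c) {w : ℝ} (hw : 0 < w) {t : ℝ}
    (h : ∀ i, ∀ n : ℤ, θ i + n * t = 0 → n = 0) : Mp c θ p w t = Mn c θ p * J w := by
  classical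
  rw [Mn_mul h0 hc, Mp_eq]
  refine tsum_congr fun x => ?_
  refine if_congr ?_ rfl rfl
  constructor
  · rintro ⟨a1, a2⟩
    have h1 := h x.1 ((x.2.1 : ℤ) - x.2.2) (by push_cast; exact a1)
    have h2 : x.2.1 = x.2.2 := by omega
    rw [h2, sub_self, zero_mul, add_zero] at a1
    rw [h2] at a2
    refine ⟨⟨a1, ?_⟩, h2⟩
    rw [Nat.even_add] at a2
    exact a2.2 ⟨x.2.2, rfl⟩
  · rintro ⟨⟨a1, a2⟩, a3⟩
    rw [a3, a1, sub_self, zero_mul, add_zero]
    exact ⟨rfl, a2.add ⟨x.2.2, rfl⟩⟩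

theorem Mp_gt (h0 : ∀ i, 0 < c i) (hc : Summable c) {w : ℝ} (hw : 0 < w) {t : ℝ} (ht : t ≠ 0)
    (h : ∃ i, ∃ n : ℤ, n ≠ 0 ∧ θ i = 2 * n * t ∧ Even (p i)) : Mn c θ p * J w < Mp c θ p w t := by
  classical
  obtain ⟨i, n, hn, hθ, hp⟩ := h
  rw [Mn_mul h0 hc, Mp_eq]
  have hpos : ∀ x : κ × (ℕ × ℕ), 0 < c x.1 * dd1 w x.2 := fun x => mul_pos (h0 _) (dd1_pos hw _)
  have hθ0 : θ i ≠ 0 := by
    rw [hθ]
    have : (n : ℝ) ≠ 0 := by exact_mod_cast hn
    positivity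
  obtain ⟨a, b, hab⟩ : ∃ a b : ℕ, (a : ℤ) - b = -n := by
    rcases le_total 0 n with h1 | h1
    · refine ⟨0, n.toNat, ?_⟩
      rw [Int.toNat_of_nonneg h1]
      simp
    · refine ⟨(-n).toNat, 0, ?_⟩
      rw [Int.toNat_of_nonneg (by linarith)]
      simp
  have hab' : (a : ℝ) - b = -n := by exact_mod_cast hab
  refine Summable.tsum_lt_tsum (i := (i, (2 * a, 2 * b))) (fun x => ?_) ?_ (Mn_summable hpos (cd_sum h0 hc hw) _)
    (Mn_summable hpos (cd_sum h0 hc hw) _)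
  · by_cases h1 : (θ x.1 = 0 ∧ Even (p x.1)) ∧ x.2.1 = x.2.2
    · simp only
      rw [if_pos h1, if_pos]
      obtain ⟨⟨a1, a2⟩, a3⟩ := h1
      rw [a3, a1, sub_self, zero_mul, add_zero]
      exact ⟨rfl, a2.add ⟨x.2.2, rfl⟩⟩
    · simp only
      rw [if_neg h1]
      split_ifs
      · exact (hpos x).le
      · exact le_refl 0
  · simp only
    rw [if_neg (fun h => hθ0 h.1.1), if_pos]
    · exact hpos (i, (2 * a, 2 * b))
    · constructor
      · push_cast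
        rw [hθ]
        linear_combination 2 * t * hab'
      · refine hp.add ⟨a + b, by ring⟩

end

end Run7.h278.LM
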